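import Pool.Agent.H502.SM.Cor7
import Pool.Graph.R_seed8.W528.Ord.Dens

/-!
# Sharp strong multiplicity one modulo `p` for representations with large image over number fields
-/

set_option autoImplicit false

open Matrix NumberField IsDedekindDomain Filter Topology
open Pool.Agent.W401.Cheb

namespace Pool.Agent.H502.SM

section freq

variable {K : Type} [Field K] [NumberField K]

lemma freq_card (U : Subgroup (GK K)) [U.Normal] (hU : IsOpen (U : Set (GK K))) (C : Set (GK K))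
    (h1 : ∀ σ ∈ C, ∀ τ : GK K, τ * σ * τ⁻¹ ∈ C) (h2 : ∀ σ ∈ C, ∀ u ∈ U, σ * u ∈ C)
    (Good : HeightOneSpectrum (𝓞 K) → Prop) {δ : ℝ} (hG : ∃ᶠ N in atTop, δ ≤ dens Good N)
    (h : ∀ v, Good v → ∃ σ ∈ C, IsFrob v σ) :
    δ * (Nat.card (GK K ⧸ U) : ℝ) ≤ (((QuotientGroup.mk : GK K → GK K ⧸ U) '' C).ncard : ℝ) := by
  have hfin : Finite (GK K ⧸ U) := Subgroup.quotient_finite_of_isOpen _ hU
  have key := Pool.Agent.W528.Ord.chebK K U hU C h1 h2
  have hle : ∃ᶠ N in atTop, δ ≤ dens (fun v : HeightOneSpectrum (𝓞 K) => ∃ σ ∈ C, IsFrob v σ) N :=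
    hG.mono fun N hN => hN.trans (Pool.Agent.W528.Ord.dens_mono h N)
  have h3 : δ ≤ ((((QuotientGroup.mk : GK K → GK K ⧸ U) '' C).ncard : ℝ) /
      (Nat.card (GK K ⧸ U) : ℝ)) := by
    by_contra hlt
    push Not at hlt
    have h4 := key.eventually (gt_mem_nhds hlt)
    obtain ⟨N, hN1, hN2⟩ := (hle.and_eventually h4).exists
    linarith
  have hpos : (0 : ℝ) < (Nat.card (GK K ⧸ U) : ℝ) := by exact_mod_cast Nat.card_pos
  rwa [le_div_iff₀ hpos] at h3

end freq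

section quot

variable {G : Type*} [Group G] {k : Type*} [Field k] {F : Type*} [Field F]

/-- the representation of a quotient -/
def ql (U : Subgroup G) [U.Normal] (ρ : G →* GL (Fin 2) k) (h : U ≤ ρ.ker) :
    G ⧸ U →* GL (Fin 2) k := QuotientGroup.lift U ρ h

lemma ql_mk (U : Subgroup G) [U.Normal] (ρ : G →* GL (Fin 2) k) (h : U ≤ ρ.ker) (x : G) :
    mm (ql U ρ h) (QuotientGroup.mk x) = mm ρ x := rfl

lemma Large.ql {ι : F →+* k} {ρ : G →* GL (Fin 2) k} (hL : Large ι ρ) (U : Subgroup G) [U.Normal]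
    (h : U ≤ ρ.ker) : Large ι (ql U ρ h) := by
  constructor
  · intro B hB
    obtain ⟨x, c, hx⟩ := hL.sl B hB
    exact ⟨QuotientGroup.mk x, c, hx⟩
  · intro γ
    obtain ⟨x, rfl⟩ := QuotientGroup.mk_surjective γ
    obtain ⟨c, A, hx⟩ := hL.form x
    exact ⟨c, A, hx⟩

end quot

section nf

variable {K : Type} [Field K] [NumberField K] {k : Type*} [Field k] {F : Type*} [Field F] [Fintype F]
  {p : ℕ} [hp : Fact p.Prime] [CharP k p]

omit [Fintype F] hp [CharP k p] [Field F] [NumberField K] in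
lemma open_inf {ρ : GK K →* GL (Fin 2) k} {m : ℕ} {σ : Fin m → (GK K →* GL (Fin 2) k)}
    (hρ : IsOpen (ρ.ker : Set (GK K))) (hσ : ∀ i, IsOpen ((σ i).ker : Set (GK K))) :
    IsOpen ((ρ.ker ⊓ ⨅ i, (σ i).ker : Subgroup (GK K)) : Set (GK K)) := by
  rw [Subgroup.coe_inf, Subgroup.coe_iInf]
  exact hρ.inter (isOpen_iInter_of_finite hσ)

instance norm_inf {G : Type*} [Group G] {ρ : G →* GL (Fin 2) k} {m : ℕ}
    {σ : Fin m → (G →* GL (Fin 2) k)} : (ρ.ker ⊓ ⨅ i, (σ i).ker : Subgroup G).Normal := by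
  have h1 : (⨅ i, (σ i).ker : Subgroup G).Normal := by
    constructor
    intro x hx g
    rw [Subgroup.mem_iInf] at hx ⊢
    intro i
    exact ((σ i).normal_ker).conj_mem x (hx i) g
  exact Subgroup.normal_inf_normal _ _

/-- **First theorem.** -/
theorem main_one [CharP F p] (h5 : 5 ≤ p) {ι : F →+* k} {ρ : GK K →* GL (Fin 2) k} (hL : Large ι ρ)
    (hρ : IsOpen (ρ.ker : Set (GK K))) {m : ℕ} {σ : Fin m → (GK K →* GL (Fin 2) k)}
    (hσ : ∀ i, IsOpen ((σ i).ker : Set (GK K))) (Good : HeightOneSpectrum (𝓞 K) → Prop) {δ : ℝ}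
    (hG : ∃ᶠ N in atTop, δ ≤ dens Good N) (hδ : (m : ℝ) / (Fintype.card F - 1) < δ)
    (h : ∀ v, Good v → ∃ x, IsFrob v x ∧ ∃ i, (ρ x).val.trace = (σ i x).val.trace) :
    ∃ (i : Fin m) (P : GL (Fin 2) k) (j : ℕ) (χ : GK K →* kˣ), IsOpen (χ.ker : Set (GK K)) ∧
      ∀ x, (σ i x).val = (χ x : k) • (P.val * (ρ x).val.map (fun a => a ^ p ^ j) * (P⁻¹).val) := by
  classical
  set U : Subgroup (GK K) := ρ.ker ⊓ ⨅ i, (σ i).ker with hUdef
  have hUo : IsOpen (U : Set (GK K)) := open_inf hρ hσ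
  have hfin : Finite (GK K ⧸ U) := Subgroup.quotient_finite_of_isOpen _ hUo
  have hUρ : U ≤ ρ.ker := inf_le_left
  have hUσ : ∀ i, U ≤ (σ i).ker := fun i => inf_le_right.trans (iInf_le _ i)
  let _ : Fintype (GK K ⧸ U) := Fintype.ofFinite _
  set C : Set (GK K) := {x | ∃ i, (ρ x).val.trace = (σ i x).val.trace} with hC
  set S : Fin m → Finset (GK K ⧸ U) := fun i =>
    Finset.univ.filter fun γ => (mm (ql U ρ hUρ) γ).trace = (mm (ql U (σ i) (hUσ i)) γ).trace with hS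
  have h1 : ∀ s ∈ C, ∀ τ : GK K, τ * s * τ⁻¹ ∈ C := by
    rintro s ⟨i, hi⟩ τ
    refine ⟨i, ?_⟩
    have e1 := trace_conj ρ τ s
    have e2 := trace_conj (σ i) τ s
    exact e1.trans (hi.trans e2.symm)
  have h2 : ∀ s ∈ C, ∀ u ∈ U, s * u ∈ C := by
    rintro s ⟨i, hi⟩ u hu
    refine ⟨i, ?_⟩
    rw [map_mul, map_mul, (MonoidHom.mem_ker).mp (hUρ hu), (MonoidHom.mem_ker).mp (hUσ i hu), mul_one,
      mul_one]
    exact hi
  have key := freq_card U hUo C h1 h2 Good hG (by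
    intro v hv
    obtain ⟨x, hx, hx'⟩ := h v hv
    exact ⟨x, hx', hx⟩)
  have himg : ((QuotientGroup.mk : GK K → GK K ⧸ U) '' C) ⊆ ((Finset.univ.biUnion S : Finset _) : Set _) := by
    rintro _ ⟨x, ⟨i, hi⟩, rfl⟩
    rw [Finset.mem_coe, Finset.mem_biUnion]
    exact ⟨i, Finset.mem_univ _, Finset.mem_filter.mpr ⟨Finset.mem_univ _, hi⟩⟩
  have hcard : (((QuotientGroup.mk : GK K → GK K ⧸ U) '' C).ncard : ℝ) ≤ ∑ i, ((S i).card : ℝ) := by
    have e1 := Set.ncard_le_ncard himg (Finset.finite_toSet _)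
    rw [Set.ncard_coe_finset] at e1
    have e2 : (Finset.univ.biUnion S).card ≤ ∑ i, (S i).card := Finset.card_biUnion_le
    exact_mod_cast e1.trans e2
  have hq : (1 : ℝ) < Fintype.card F := by exact_mod_cast Fintype.one_lt_card (α := F)
  have hpos : (0 : ℝ) < (Nat.card (GK K ⧸ U) : ℝ) := by exact_mod_cast Nat.card_pos
  have hex : ∃ i, Fintype.card (GK K ⧸ U) < (S i).card * (Fintype.card F - 1) := by
    by_contra hcon
    push Not at hcon
    have e3 : ∀ i, ((S i).card : ℝ) * (Fintype.card F - 1) ≤ Nat.card (GK K ⧸ U) := by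
      intro i
      have e4 := hcon i
      rw [← Nat.card_eq_fintype_card (α := GK K ⧸ U)] at e4
      have e5 : ((Fintype.card F - 1 : ℕ) : ℝ) = (Fintype.card F : ℝ) - 1 := by
        rw [Nat.cast_sub (Fintype.card_pos)]
        simp
      rw [← e5]
      exact_mod_cast e4
    have e6 : (∑ i, ((S i).card : ℝ)) * (Fintype.card F - 1) ≤ m * Nat.card (GK K ⧸ U) := by
      rw [Finset.sum_mul]
      refine (Finset.sum_le_sum fun i _ => e3 i).trans ?_
      rw [Finset.sum_const, Finset.card_univ, Fintype.card_fin, nsmul_eq_mul]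
    have e7 : δ * (Nat.card (GK K ⧸ U) : ℝ) * (Fintype.card F - 1) ≤ m * Nat.card (GK K ⧸ U) :=
      (mul_le_mul_of_nonneg_right (key.trans hcard) (by linarith)).trans e6
    rw [div_lt_iff₀ (by linarith)] at hδ
    have e8 : (m : ℝ) * Nat.card (GK K ⧸ U) < δ * (Fintype.card F - 1) * Nat.card (GK K ⧸ U) :=
      mul_lt_mul_of_pos_right hδ hpos
    nlinarith
  obtain ⟨i, hi⟩ := hex
  obtain ⟨P, j, χ, hχ⟩ := finite_one h5 (hL.ql U hUρ) (S i) (fun γ hγ => (Finset.mem_filter.mp hγ).2) hi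
  refine ⟨i, P, j, χ.comp (QuotientGroup.mk' U), ?_, fun x => hχ (QuotientGroup.mk x)⟩
  apply Subgroup.isOpen_mono (H₁ := U) ?_ hUo
  intro x hx
  rw [MonoidHom.mem_ker, MonoidHom.comp_apply]
  have : (QuotientGroup.mk' U) x = 1 := (QuotientGroup.eq_one_iff x).mpr hx
  rw [this, map_one]

/-- **Second theorem.** -/
theorem main_two (h5 : 5 ≤ p) {ι : F →+* k} {ρ : GK K →* GL (Fin 2) k} (hL : Large ι ρ)
    (hρ : IsOpen (ρ.ker : Set (GK K))) {σ : GK K →* GL (Fin 2) k}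
    (hσ : IsOpen (σ.ker : Set (GK K))) (Good : HeightOneSpectrum (𝓞 K) → Prop) {δ : ℝ}
    (hG : ∃ᶠ N in atTop, δ ≤ dens Good N)
    (hδ : (Fintype.card F : ℝ) / (2 * (Fintype.card F - 1)) < δ)
    (h : ∀ v, Good v → ∃ x, IsFrob v x ∧ (ρ x).val.trace = (σ x).val.trace) :
    ∃ (P : GL (Fin 2) k), ∀ x, σ x = P * ρ x * P⁻¹ := by
  classical
  set U : Subgroup (GK K) := ρ.ker ⊓ σ.ker with hUdef
  have hUo : IsOpen (U : Set (GK K)) := hρ.inter hσ
  have hfin : Finite (GK K ⧸ U) := Subgroup.quotient_finite_of_isOpen _ hUo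
  have hUρ : U ≤ ρ.ker := inf_le_left
  have hUσ : U ≤ σ.ker := inf_le_right
  let _ : Fintype (GK K ⧸ U) := Fintype.ofFinite _
  set C : Set (GK K) := {x | (ρ x).val.trace = (σ x).val.trace} with hC
  set S : Finset (GK K ⧸ U) :=
    Finset.univ.filter fun γ => (mm (ql U ρ hUρ) γ).trace = (mm (ql U σ hUσ) γ).trace with hS
  have h1 : ∀ s ∈ C, ∀ τ : GK K, τ * s * τ⁻¹ ∈ C := by
    intro s hi τ
    have e1 := trace_conj ρ τ s
    have e2 := trace_conj σ τ s
    exact e1.trans (Eq.trans hi e2.symm)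
  have h2 : ∀ s ∈ C, ∀ u ∈ U, s * u ∈ C := by
    intro s hi u hu
    change (ρ (s * u)).val.trace = (σ (s * u)).val.trace
    rw [map_mul, map_mul, (MonoidHom.mem_ker).mp (hUρ hu), (MonoidHom.mem_ker).mp (hUσ hu), mul_one,
      mul_one]
    exact hi
  have key := freq_card U hUo C h1 h2 Good hG (by
    intro v hv
    obtain ⟨x, hx, hx'⟩ := h v hv
    exact ⟨x, hx', hx⟩)
  have himg : ((QuotientGroup.mk : GK K → GK K ⧸ U) '' C) ⊆ (S : Set _) := by
    rintro _ ⟨x, hi, rfl⟩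
    exact Finset.mem_coe.mpr (Finset.mem_filter.mpr ⟨Finset.mem_univ _, hi⟩)
  have hcard : (((QuotientGroup.mk : GK K → GK K ⧸ U) '' C).ncard : ℝ) ≤ (S.card : ℝ) := by
    have e1 := Set.ncard_le_ncard himg (Finset.finite_toSet _)
    rw [Set.ncard_coe_finset] at e1
    exact_mod_cast e1
  have hq : (1 : ℝ) < Fintype.card F := by exact_mod_cast Fintype.one_lt_card (α := F)
  have hpos : (0 : ℝ) < (Nat.card (GK K ⧸ U) : ℝ) := by exact_mod_cast Nat.card_pos
  have hlt : Fintype.card (GK K ⧸ U) * Fintype.card F < S.card * (2 * (Fintype.card F - 1)) := by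
    have e5 : ((Fintype.card F - 1 : ℕ) : ℝ) = (Fintype.card F : ℝ) - 1 := by
      rw [Nat.cast_sub (Fintype.card_pos)]
      simp
    rw [div_lt_iff₀ (by linarith)] at hδ
    have e6 : (Nat.card (GK K ⧸ U) : ℝ) * Fintype.card F < S.card * (2 * (Fintype.card F - 1)) := by
      have e7 : (Nat.card (GK K ⧸ U) : ℝ) * Fintype.card F <
          Nat.card (GK K ⧸ U) * (δ * (2 * (Fintype.card F - 1))) := mul_lt_mul_of_pos_left hδ hpos
      have e8 : (δ * (Nat.card (GK K ⧸ U) : ℝ)) * (2 * (Fintype.card F - 1)) ≤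
          S.card * (2 * (Fintype.card F - 1)) :=
        mul_le_mul_of_nonneg_right (key.trans hcard) (by linarith)
      nlinarith
    rw [← e5, Nat.card_eq_fintype_card] at e6
    exact_mod_cast e6
  obtain ⟨P, hP⟩ := finite_two h5 (hL.ql U hUρ) S (fun γ hγ => (Finset.mem_filter.mp hγ).2) hlt
  exact ⟨P, fun x => Units.ext (hP (QuotientGroup.mk x))⟩

end nf

end Pool.Agent.H502.SM
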