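import Pool.Agent.H502.SM.Sharp

/-!
# The prime field, equal determinants
-/

set_option autoImplicit false

open Matrix NumberField IsDedekindDomain Filter Topology
open Pool.Agent.W401.Cheb

namespace Pool.Agent.H502.SM

variable {K : Type} [Field K] [NumberField K] {k : Type*} [Field k]
  {p : ℕ} [hp : Fact p.Prime] [CharP k p]

omit hp in
lemma sign_inj (h5 : 5 ≤ p) :
    Function.Injective (Units.map (Int.castRingHom k).toMonoidHom : ℤˣ →* kˣ) := by
  have h2 := two_ne (k := k) h5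
  have hne : (Units.map (Int.castRingHom k).toMonoidHom (-1 : ℤˣ) : kˣ) ≠ 1 := by
    intro h
    have h1 := congrArg Units.val h
    simp at h1
    apply h2
    linear_combination -h1
  intro a b hab
  rcases Int.units_eq_one_or a with rfl | rfl <;> rcases Int.units_eq_one_or b with rfl | rfl
  · rfl
  · rw [map_one] at hab; exact absurd hab.symm hne
  · rw [map_one] at hab; exact absurd hab hne
  · rfl

omit hp in
/-- a character whose square is trivial -/
lemma sign_char {G : Type*} [Group G] (h5 : 5 ≤ p) (χ : G →* kˣ) (h : ∀ x, (χ x : k) ^ 2 = 1) :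
    ∃ ε : G →* ℤˣ, (∀ x, (((ε x : ℤˣ) : ℤ) : k) = χ x) ∧ χ.ker = ε.ker := by
  set f : ℤˣ →* kˣ := Units.map (Int.castRingHom k).toMonoidHom with hf
  have hinj := sign_inj (k := k) h5
  have hex : ∀ x, ∃ u : ℤˣ, f u = χ x := by
    intro x
    have h1 : ((χ x : k) - 1) * ((χ x : k) + 1) = 0 := by linear_combination h x
    rcases mul_eq_zero.mp h1 with h2 | h2
    · refine ⟨1, ?_⟩
      rw [map_one]
      apply Units.ext
      rw [Units.val_one]
      linear_combination -h2
    · refine ⟨-1, ?_⟩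
      apply Units.ext
      have : ((f (-1) : kˣ) : k) = -1 := by simp [hf]
      rw [this]
      linear_combination -h2
  choose u hu using hex
  refine ⟨{ toFun := u, map_one' := ?_, map_mul' := ?_ }, ?_, ?_⟩
  · apply hinj
    change f (u 1) = f 1
    rw [hu, map_one, map_one]
  · intro x y
    apply hinj
    change f (u (x * y)) = f (u x * u y)
    rw [hu, map_mul, map_mul, hu, hu]
  · intro x
    have := congrArg Units.val (hu x)
    exact this
  · ext x
    rw [MonoidHom.mem_ker, MonoidHom.mem_ker]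
    change χ x = 1 ↔ u x = 1
    rw [← hu x]
    constructor
    · intro h; exact hinj (h.trans (map_one f).symm)
    · intro h; rw [h, map_one]

/-- the representation over the larger field -/
noncomputable def ext (ρ : GK K →* GL (Fin 2) (ZMod p)) : GK K →* GL (Fin 2) k :=
  (Matrix.GeneralLinearGroup.map (ZMod.castHom (dvd_refl p) k)).comp ρ

omit [NumberField K] in
lemma ext_val (ρ : GK K →* GL (Fin 2) (ZMod p)) (x : GK K) :
    (ext (k := k) ρ x).val = (ρ x).val.map (ZMod.castHom (dvd_refl p) k) := rfl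

omit [NumberField K] in
lemma ext_large (ρ : GK K →* GL (Fin 2) (ZMod p))
    (hS : ∀ B : Matrix (Fin 2) (Fin 2) (ZMod p), B.det = 1 → ∃ x, (ρ x).val = B) :
    Large (ZMod.castHom (dvd_refl p) k) (ext (k := k) ρ) := by
  constructor
  · intro B hB
    obtain ⟨x, hx⟩ := hS B hB
    exact ⟨x, 1, by rw [one_smul]; change (ext (k := k) ρ x).val = _; rw [ext_val, hx]⟩
  · intro x
    exact ⟨1, ρ x, by rw [one_smul]; rfl⟩

omit [NumberField K] in
lemma ext_open (ρ : GK K →* GL (Fin 2) (ZMod p)) (hρ : IsOpen (ρ.ker : Set (GK K))) :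
    IsOpen ((ext (k := k) ρ).ker : Set (GK K)) := by
  refine Subgroup.isOpen_mono (H₁ := ρ.ker) ?_ hρ
  intro x hx
  rw [MonoidHom.mem_ker] at hx ⊢
  apply Units.ext
  rw [ext_val, hx]
  exact Matrix.map_one _ (map_zero _) (map_one _)

theorem main_fp (h5 : 5 ≤ p) (ρ : GK K →* GL (Fin 2) (ZMod p)) (hρ : IsOpen (ρ.ker : Set (GK K)))
    (hS : ∀ B : Matrix (Fin 2) (Fin 2) (ZMod p), B.det = 1 → ∃ x, (ρ x).val = B)
    (σ : GK K →* GL (Fin 2) k) (hσ : IsOpen (σ.ker : Set (GK K)))
    (hdet : ∀ x, (σ x).val.det = ZMod.castHom (dvd_refl p) k (ρ x).val.det)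
    (Good : HeightOneSpectrum (𝓞 K) → Prop) {δ : ℝ}
    (hG : ∃ᶠ N in atTop, δ ≤ dens Good N) (hδ : (1 : ℝ) / (p - 1) < δ)
    (h : ∀ v, Good v → ∃ x, IsFrob v x ∧
      (σ x).val.trace = ZMod.castHom (dvd_refl p) k (ρ x).val.trace) :
    ∃ (P : GL (Fin 2) k) (ε : GK K →* ℤˣ), IsOpen (ε.ker : Set (GK K)) ∧
      ∀ x, (σ x).val = (((ε x : ℤˣ) : ℤ) : k) •
        (P.val * (ρ x).val.map (ZMod.castHom (dvd_refl p) k) * (P⁻¹).val) := by
  obtain ⟨i, P, j, χ, hχo, hχ⟩ := main_one h5 (ext_large (k := k) ρ hS) (ext_open ρ hρ) (m := 1)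
    (σ := fun _ => σ) (fun _ => hσ) Good hG (by rw [ZMod.card]; push_cast; exact hδ) (by
    intro v hv
    obtain ⟨x, hx, hx'⟩ := h v hv
    refine ⟨x, hx, 0, ?_⟩
    rw [hx', ext_val, trace_map])
  have hfr : ∀ x, (ext (k := k) ρ x).val.map (fun a => a ^ p ^ j) = (ext (k := k) ρ x).val := by
    intro x
    rw [ext_val]
    ext a b
    simp only [Matrix.map_apply]
    rw [← map_pow, ZMod.pow_card_pow]
  have hχ' : ∀ x, (σ x).val = (χ x : k) •
      (P.val * (ρ x).val.map (ZMod.castHom (dvd_refl p) k) * (P⁻¹).val) := by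
    intro x
    have := hχ x
    rw [hfr, ext_val] at this
    exact this
  have hsq : ∀ x, (χ x : k) ^ 2 = 1 := by
    intro x
    have h1 := hdet x
    have hPd : P.val.det * (P⁻¹).val.det = 1 := by
      rw [← Matrix.det_mul, val_mul_inv, Matrix.det_one]
    have h2 : ((ρ x).val.map (ZMod.castHom (dvd_refl p) k)).det =
        ZMod.castHom (dvd_refl p) k (ρ x).val.det := by
      rw [RingHom.map_det]; rfl
    rw [hχ' x, Matrix.det_smul, Matrix.det_mul, Matrix.det_mul, h2, Fintype.card_fin] at h1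
    have h3 : ZMod.castHom (dvd_refl p) k (ρ x).val.det ≠ 0 := by
      rw [← hdet]
      exact mm_det_ne σ x
    set d := ZMod.castHom (dvd_refl p) k (ρ x).val.det
    apply mul_right_cancel₀ h3
    calc (χ x : k) ^ 2 * d = (χ x : k) ^ 2 * (P.val.det * d * (P⁻¹).val.det) := by
          linear_combination -(χ x : k) ^ 2 * d * hPd
      _ = 1 * d := by rw [h1, one_mul]
  obtain ⟨ε, h1, h2⟩ := sign_char h5 χ hsq
  refine ⟨P, ε, ?_, fun x => by rw [h1]; exact hχ' x⟩
  rw [← h2]
  exact hχo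

end Pool.Agent.H502.SM
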