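import Mathlib

/-!
# Counting matrices with a given trace in a coset of `SL_2` of a finite field
-/

set_option autoImplicit false

open Matrix Finset

namespace Pool.Agent.H502.SM

variable {F : Type*} [Field F] [Fintype F] [DecidableEq F]

/-- the matrices with determinant `δ` and trace `t` -/
def TT (δ t : F) : Finset (F × F × F) :=
  univ.filter fun z => z.1 * (t - z.1) - z.2.1 * z.2.2 = δ

/-- the roots of the characteristic polynomial -/
def RR (δ t : F) : Finset F := univ.filter fun a => a * (t - a) = δ

lemma inner (δ t a b : F) : (∑ c : F, if a * (t - a) - b * c = δ then 1 else 0 : ℕ) =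
    if b = 0 then (if a * (t - a) = δ then Fintype.card F else 0) else 1 := by
  by_cases hb : b = 0
  · subst hb
    simp only [zero_mul, sub_zero, if_true]
    by_cases h : a * (t - a) = δ
    · simp [h]
    · simp [h]
  · rw [if_neg hb]
    have : ∀ c : F, (a * (t - a) - b * c = δ) ↔ (a * (t - a) - δ) / b = c := by
      intro c
      rw [div_eq_iff hb]
      constructor
      · intro h; linear_combination h
      · intro h; linear_combination h
    simp only [this, Finset.sum_ite_eq, Finset.mem_univ, if_true]

lemma card_TT (δ t : F) : (TT δ t).card =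
    Fintype.card F * (Fintype.card F - 1) + (RR δ t).card * Fintype.card F := by
  unfold TT RR
  rw [Finset.card_filter, Fintype.sum_prod_type]
  simp only [Fintype.sum_prod_type, inner]
  have h1 : ∀ a : F, (∑ b : F, if b = 0 then (if a * (t - a) = δ then Fintype.card F else 0) else 1 : ℕ) =
      (if a * (t - a) = δ then Fintype.card F else 0) + (Fintype.card F - 1) := by
    intro a
    rw [← Finset.add_sum_erase univ _ (Finset.mem_univ (0 : F))]
    rw [if_pos rfl]
    congr 1
    rw [Finset.sum_congr rfl (g := fun _ => 1)]
    · simp [Finset.card_erase_of_mem]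
    · intro b hb
      rw [if_neg (Finset.ne_of_mem_erase hb)]
  simp only [h1, Finset.sum_add_distrib]
  rw [Finset.card_filter, Finset.sum_mul]
  simp only [ite_mul, one_mul, zero_mul, Finset.sum_const, Finset.card_univ, smul_eq_mul]
  ring

lemma card_RR_le (δ t : F) : (RR δ t).card ≤ 2 := by
  by_cases h : (RR δ t).Nonempty
  · obtain ⟨a, ha⟩ := h
    have ha' : a * (t - a) = δ := (Finset.mem_filter.mp ha).2
    refine (Finset.card_le_card (t := {a, t - a}) ?_).trans Finset.card_le_two
    intro b hb
    have hb' : b * (t - b) = δ := (Finset.mem_filter.mp hb).2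
    have : (b - a) * (t - b - a) = 0 := by linear_combination hb' - ha'
    rcases mul_eq_zero.mp this with h | h
    · rw [sub_eq_zero.mp h]; simp
    · have : b = t - a := by linear_combination -h
      rw [this]; simp
  · rw [Finset.not_nonempty_iff_eq_empty] at h
    rw [h]; simp

lemma card_TT_le (δ t : F) : (TT δ t).card ≤ Fintype.card F ^ 2 + Fintype.card F := by
  rw [card_TT]
  have h1 := card_RR_le δ t
  have h2 : 1 ≤ Fintype.card F := Fintype.card_pos
  obtain ⟨q, hq⟩ : ∃ q, Fintype.card F = q + 1 := ⟨_, (Nat.sub_add_cancel h2).symm⟩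
  rw [hq, Nat.add_sub_cancel]
  nlinarith [Nat.mul_le_mul_right (q + 1) h1]

/-- the elements of a coset of `SL_2` with a given trace -/
lemma card_tr (A : GL (Fin 2) F) (t : F) :
    (univ.filter fun B : SpecialLinearGroup (Fin 2) F => (A.val * B.val).trace = t).card =
      (TT A.val.det t).card := by
  have hA : A.val.det ≠ 0 := by
    have := A.isUnit.map (Matrix.detMonoidHom)
    exact this.ne_zero
  refine Finset.card_bij (fun B _ => ((A.val * B.val) 0 0, (A.val * B.val) 0 1, (A.val * B.val) 1 0))
    ?_ ?_ ?_
  · intro B hB
    have ht : (A.val * B.val).trace = t := (Finset.mem_filter.mp hB).2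
    have hd : (A.val * B.val).det = A.val.det := by
      rw [Matrix.det_mul, B.2, mul_one]
    rw [Matrix.trace_fin_two] at ht
    rw [Matrix.det_fin_two (A.val * B.val)] at hd
    refine Finset.mem_filter.mpr ⟨Finset.mem_univ _, ?_⟩
    simp only
    rw [← hd, ← ht]
    ring
  · intro B hB B' hB' h
    have ht : (A.val * B.val).trace = t := (Finset.mem_filter.mp hB).2
    have ht' : (A.val * B'.val).trace = t := (Finset.mem_filter.mp hB').2
    rw [Matrix.trace_fin_two] at ht ht'
    simp only [Prod.mk.injEq] at h
    have e : A.val * B.val = A.val * B'.val := by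
      ext i j
      fin_cases i <;> fin_cases j
      · exact h.1
      · exact h.2.1
      · exact h.2.2
      · change (A.val * B.val) 1 1 = (A.val * B'.val) 1 1
        have := h.1
        linear_combination ht - ht' - this
    have e2 : B.val = B'.val := by
      have := congrArg (fun M => (A⁻¹).val * M) e
      simpa [← Matrix.mul_assoc, ← Units.val_mul] using this
    exact Subtype.ext e2
  · rintro ⟨a, b, c⟩ h
    have h' : a * (t - a) - b * c = A.val.det := (Finset.mem_filter.mp h).2
    let Y : Matrix (Fin 2) (Fin 2) F := !![a, b; c, t - a]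
    have hY : Y.det = A.val.det := by rw [← h']; simp [Y, Matrix.det_fin_two]
    have hAi : (A⁻¹).val.det * A.val.det = 1 := by
      rw [← Matrix.det_mul, ← Units.val_mul, inv_mul_cancel]; simp
    have hB : ((A⁻¹).val * Y).det = 1 := by rw [Matrix.det_mul, hY, hAi]
    have hAB : A.val * ((A⁻¹).val * Y) = Y := by
      rw [← Matrix.mul_assoc, ← Units.val_mul, mul_inv_cancel]; simp
    refine ⟨⟨(A⁻¹).val * Y, hB⟩, ?_, ?_⟩
    · refine Finset.mem_filter.mpr ⟨Finset.mem_univ _, ?_⟩
      change (A.val * ((A⁻¹).val * Y)).trace = t
      rw [hAB]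
      simp [Y, Matrix.trace_fin_two]
    · change ((A.val * ((A⁻¹).val * Y)) 0 0, (A.val * ((A⁻¹).val * Y)) 0 1,
        (A.val * ((A⁻¹).val * Y)) 1 0) = (a, b, c)
      rw [hAB]
      simp [Y]

lemma card_tr_le (A : GL (Fin 2) F) (t : F) :
    (univ.filter fun B : SpecialLinearGroup (Fin 2) F => (A.val * B.val).trace = t).card ≤
      Fintype.card F ^ 2 + Fintype.card F := by
  rw [card_tr]
  exact card_TT_le _ _

/-- the order of `SL_2` -/
lemma card_SL : Fintype.card (SpecialLinearGroup (Fin 2) F) =
    Fintype.card F * (Fintype.card F - 1) * (Fintype.card F + 1) := by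
  have h1 : Fintype.card (SpecialLinearGroup (Fin 2) F) = ∑ t : F, (TT (1 : F) t).card := by
    have := Finset.card_eq_sum_card_fiberwise (s := (univ : Finset (SpecialLinearGroup (Fin 2) F)))
      (t := (univ : Finset F)) (f := fun B => B.val.trace) (fun _ _ => Finset.mem_univ _)
    rw [Finset.card_univ] at this
    rw [this]
    refine Finset.sum_congr rfl fun t _ => ?_
    have h := card_tr (1 : GL (Fin 2) F) t
    simp only [Units.val_one, Matrix.one_mul, Matrix.det_one] at h
    exact h
  have h2 : ∑ t : F, (RR (1 : F) t).card = Fintype.card F - 1 := by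
    unfold RR
    simp only [Finset.card_filter]
    rw [Finset.sum_comm]
    have : ∀ a : F, (∑ t : F, if a * (t - a) = 1 then 1 else 0 : ℕ) = if a = 0 then 0 else 1 := by
      intro a
      by_cases ha : a = 0
      · simp [ha]
      · rw [if_neg ha]
        have : ∀ t : F, (a * (t - a) = 1) ↔ (1 / a + a = t) := by
          intro t
          constructor
          · intro h
            field_simp
            linear_combination -h
          · rintro rfl
            field_simp
            ring
        simp only [this, Finset.sum_ite_eq, Finset.mem_univ, if_true]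
    simp only [this]
    rw [← Finset.add_sum_erase univ _ (Finset.mem_univ (0 : F)), if_pos rfl, zero_add]
    rw [Finset.sum_congr rfl (g := fun _ => 1)]
    · simp [Finset.card_erase_of_mem]
    · intro b hb
      rw [if_neg (Finset.ne_of_mem_erase hb)]
  rw [h1]
  simp only [card_TT, Finset.sum_add_distrib, ← Finset.sum_mul, h2]
  rw [Finset.sum_const, Finset.card_univ, smul_eq_mul]
  have h3 : 1 ≤ Fintype.card F := Fintype.card_pos
  obtain ⟨q, hq⟩ : ∃ q, Fintype.card F = q + 1 := ⟨_, (Nat.sub_add_cancel h3).symm⟩
  rw [hq, Nat.add_sub_cancel]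
  ring

/-- trace zero, when `- det` is a square -/
lemma card_tr_zero (A : GL (Fin 2) F) (h2 : (2 : F) ≠ 0) {s : F} (hs : - A.val.det = s ^ 2) :
    (univ.filter fun B : SpecialLinearGroup (Fin 2) F => (A.val * B.val).trace = 0).card =
      Fintype.card F ^ 2 + Fintype.card F := by
  have hA : A.val.det ≠ 0 := by
    have := A.isUnit.map (Matrix.detMonoidHom)
    exact this.ne_zero
  have hs0 : s ≠ 0 := by
    rintro rfl
    apply hA
    linear_combination -hs
  rw [card_tr, card_TT]
  have h1 : RR A.val.det 0 = {s, -s} := by
    ext a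
    unfold RR
    simp only [Finset.mem_filter, Finset.mem_univ, true_and, Finset.mem_insert, Finset.mem_singleton]
    constructor
    · intro h
      have : (a - s) * (a + s) = 0 := by linear_combination -h + hs
      rcases mul_eq_zero.mp this with h | h
      · left; linear_combination h
      · right; linear_combination h
    · rintro (rfl | rfl)
      · linear_combination hs
      · linear_combination hs
  have hne : s ≠ -s := by
    intro h
    have : 2 * s = 0 := by linear_combination h
    exact (mul_ne_zero h2 hs0) this
  rw [h1, Finset.card_pair hne]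
  have h3 : 1 ≤ Fintype.card F := Fintype.card_pos
  obtain ⟨q, hq⟩ : ∃ q, Fintype.card F = q + 1 := ⟨_, (Nat.sub_add_cancel h3).symm⟩
  rw [hq, Nat.add_sub_cancel]
  ring

end Pool.Agent.H502.SM
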