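import Pool.Agent.H502.SM.Mat

/-!
# Two representations of a finite group in characteristic `p`: kernels
-/

set_option autoImplicit false

open Matrix

namespace Pool.Agent.H502.SM

variable {Γ : Type*} [Group Γ] [Finite Γ] {k : Type*} [Field k]

/-- the matrix -/
abbrev mm (ρ : Γ →* GL (Fin 2) k) (x : Γ) : Matrix (Fin 2) (Fin 2) k := (ρ x).val

section
omit [Finite Γ]
variable (ρ : Γ →* GL (Fin 2) k)

lemma mm_mul (x y : Γ) : mm ρ (x * y) = mm ρ x * mm ρ y := by simp [mm]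
lemma mm_one : mm ρ 1 = 1 := by simp [mm]
lemma mm_pow (x : Γ) (n : ℕ) : mm ρ (x ^ n) = mm ρ x ^ n := by simp [mm]
lemma mm_inv_mul (x : Γ) : mm ρ x⁻¹ * mm ρ x = 1 := by rw [← mm_mul, inv_mul_cancel, mm_one]
lemma mm_mul_inv (x : Γ) : mm ρ x * mm ρ x⁻¹ = 1 := by rw [← mm_mul, mul_inv_cancel, mm_one]
lemma mm_eq_one {x : Γ} : mm ρ x = 1 ↔ ρ x = 1 := by
  constructor
  · intro h; exact Units.ext h
  · intro h; simp [mm, h]
lemma mm_det_ne (x : Γ) : (mm ρ x).det ≠ 0 :=
  ((ρ x).isUnit.map (Matrix.detMonoidHom)).ne_zero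

end

/-- `x` is unipotent -/
def Uni (X : Matrix (Fin 2) (Fin 2) k) : Prop := (X - 1) * (X - 1) = 0

lemma Uni.trace {X : Matrix (Fin 2) (Fin 2) k} (h : Uni X) : X.trace = 2 := by
  have := trace_uni (N := X - 1) h
  rwa [add_sub_cancel] at this

lemma Uni.det {X : Matrix (Fin 2) (Fin 2) k} (h : Uni X) : X.det = 1 := by
  have := det_uni (N := X - 1) h
  rwa [add_sub_cancel] at this

lemma uni_Up (b : k) : Uni (Up b) := by
  unfold Uni Up
  ext i j
  fin_cases i <;> fin_cases j <;> simp [Matrix.mul_apply, Fin.sum_univ_two]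

lemma uni_Lo (b : k) : Uni (Lo b) := by
  unfold Uni Lo
  ext i j
  fin_cases i <;> fin_cases j <;> simp [Matrix.mul_apply, Fin.sum_univ_two]

lemma uni_map {F : Type*} [Field F] (ι : F →+* k) {B : Matrix (Fin 2) (Fin 2) F} (h : Uni B) :
    Uni (B.map ι) := by
  unfold Uni at *
  have h1 : B.map ι - 1 = (B - 1).map ι := by
    ext i j
    simp [Matrix.one_apply]
  rw [h1, ← Matrix.map_mul, h]
  exact Matrix.map_zero _ (map_zero ι)

lemma Uni.pow {X : Matrix (Fin 2) (Fin 2) k} (h : Uni X) (n : ℕ) : X ^ n = 1 + (n : k) • (X - 1) := by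
  have := uni_pow (N := X - 1) h n
  rwa [add_sub_cancel] at this

variable {p : ℕ} [hp : Fact p.Prime] [CharP k p]

/-- a power which kills the elements of order prime to `p` and does not change the unipotent ones -/
lemma exists_pow (p : ℕ) [hp : Fact p.Prime] (Γ : Type*) [Group Γ] [Finite Γ] :
    ∃ n a : ℕ, n ≡ 1 [MOD p] ∧ ∀ x : Γ, (x ^ n) ^ p ^ a = 1 := by
  obtain ⟨a, m, hm, hc⟩ := Nat.exists_eq_pow_mul_and_not_dvd (n := Nat.card Γ) Nat.card_pos.ne' p
    hp.out.ne_one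
  have hcop : Nat.Coprime m p := ((Nat.Prime.coprime_iff_not_dvd hp.out).mpr hm).symm
  obtain ⟨n, hn1, hn2⟩ := Nat.chineseRemainder hcop 0 1
  refine ⟨n, a, hn2, fun x => ?_⟩
  obtain ⟨r, hr⟩ := (Nat.modEq_zero_iff_dvd.mp hn1)
  rw [← pow_mul, hr]
  have : m * r * p ^ a = Nat.card Γ * r := by rw [hc]; ring
  rw [this, pow_mul, pow_card_eq_one', one_pow]

omit hp in
lemma cast_one_of_modEq {n : ℕ} (h : n ≡ 1 [MOD p]) : (n : k) = 1 := by
  have := (CharP.natCast_eq_natCast k p).mpr h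
  simpa using this

omit [Finite Γ] in
lemma uni_of_ppow (ρ : Γ →* GL (Fin 2) k) {x : Γ} {a : ℕ} (h : x ^ p ^ a = 1) : Uni (mm ρ x) := by
  apply uni_of_pow (p := p) (a := a)
  rw [← mm_pow, h, mm_one]

/-- **Lemma M.** No element of the kernel of `σ` is mapped to a unipotent element `≠ 1`: then the kernel
preserves the lines of all unipotent elements. -/
lemma lemM (h5 : 5 ≤ p) (ρ σ : Γ →* GL (Fin 2) k)
    (hA : ∀ z, σ z = 1 → Uni (mm ρ z) → ρ z = 1) {n : Γ} (hn : σ n = 1) {g : Γ}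
    (hg : Uni (mm ρ g)) : (mm ρ n * (mm ρ g - 1)).trace = 0 := by
  by_cases hg1 : mm ρ g - 1 = 0
  · rw [hg1, mul_zero, Matrix.trace_zero]
  obtain ⟨a, m, hm, hc⟩ := Nat.exists_eq_pow_mul_and_not_dvd (n := Nat.card Γ) Nat.card_pos.ne' p
    hp.out.ne_one
  have key : ∀ i : ℕ, 0 < i → i < p → ((mm ρ n).trace + (i : k) * (mm ρ n * (mm ρ g - 1)).trace) ^ 2 =
      4 * (mm ρ n).det := by
    intro i hi hip
    have hx : mm ρ (n * g ^ i) = mm ρ n * (1 + (i : k) • (mm ρ g - 1)) := by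
      rw [mm_mul, mm_pow, hg.pow]
    have h1 : (mm ρ (n * g ^ i)).trace = (mm ρ n).trace + (i : k) * (mm ρ n * (mm ρ g - 1)).trace := by
      rw [hx, mul_add, mul_one, Matrix.trace_add, mul_smul_comm, Matrix.trace_smul, smul_eq_mul]
    have h2 : (mm ρ (n * g ^ i)).det = (mm ρ n).det := by
      rw [mm_mul, Matrix.det_mul, mm_pow, Matrix.det_pow, hg.det, one_pow, mul_one]
    rw [← h1, ← h2]
    have hy : Uni (mm ρ ((n * g ^ i) ^ m)) := by
      apply uni_of_ppow (p := p) (a := a)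
      rw [← pow_mul, mul_comm m, ← hc, pow_card_eq_one']
    by_cases hy1 : mm ρ ((n * g ^ i) ^ m) - 1 = 0
    · exfalso
      have hs : σ ((n * g ^ i) ^ m * (g ^ (i * m))⁻¹) = 1 := by
        simp [hn, pow_mul]
      have hr : mm ρ ((n * g ^ i) ^ m * (g ^ (i * m))⁻¹) = mm ρ (g ^ (i * m))⁻¹ := by
        rw [mm_mul, sub_eq_zero.mp hy1, one_mul]
      have hu : Uni (mm ρ (g ^ (i * m))) := by
        rw [mm_pow, hg.pow]
        unfold Uni
        rw [add_sub_cancel_left, smul_mul_smul_comm, hg, smul_zero]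
      have hu' : Uni (mm ρ (g ^ (i * m))⁻¹) := by
        have e : mm ρ (g ^ (i * m))⁻¹ - 1 = - (mm ρ (g ^ (i * m))⁻¹ * (mm ρ (g ^ (i * m)) - 1)) := by
          rw [mul_sub, mm_inv_mul, mul_one, neg_sub]
        have e2 : mm ρ (g ^ (i * m))⁻¹ - 1 = - ((mm ρ (g ^ (i * m)) - 1) * mm ρ (g ^ (i * m))⁻¹) := by
          rw [sub_mul, mm_mul_inv, one_mul, neg_sub]
        unfold Uni
        nth_rewrite 1 [e]
        rw [e2, neg_mul_neg, mul_assoc, ← mul_assoc (mm ρ (g ^ (i * m)) - 1), hu, zero_mul, mul_zero]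
      have h3 := hA _ hs (by rw [hr]; exact hu')
      have h4 : mm ρ (g ^ (i * m))⁻¹ = 1 := by rw [← hr]; exact (mm_eq_one ρ).mpr h3
      have h5 : mm ρ (g ^ (i * m)) = 1 := by
        have := mm_mul_inv ρ (g ^ (i * m))
        rwa [h4, mul_one] at this
      rw [mm_pow, hg.pow] at h5
      have h6 : ((i * m : ℕ) : k) • (mm ρ g - 1) = 0 := by
        have := congrArg (fun t => t - 1) h5
        simpa using this
      rcases smul_eq_zero.mp h6 with h7 | h7
      · rw [CharP.cast_eq_zero_iff k p] at h7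
        rcases (Nat.Prime.dvd_mul hp.out).mp h7 with h8 | h8
        · exact absurd (Nat.le_of_dvd hi h8) (by omega)
        · exact hm h8
      · exact hg1 h7
    · refine comm_nil (N := mm ρ ((n * g ^ i) ^ m) - 1) ?_ hy hy1
      rw [mul_sub, sub_mul, mul_one, one_mul, ← mm_mul, ← mm_mul, ← pow_succ', ← pow_succ]
  have k1 := key 1 one_pos (by omega)
  have k2 := key 2 two_pos (by omega)
  have k3 := key 3 (by norm_num) (by omega)
  set t := (mm ρ n).trace
  set c := (mm ρ n * (mm ρ g - 1)).trace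
  have h2 : (2 : k) ≠ 0 := by
    have : ((2 : ℕ) : k) ≠ 0 := by
      rw [Ne, CharP.cast_eq_zero_iff k p]
      intro h
      exact absurd (Nat.le_of_dvd two_pos h) (by omega)
    exact_mod_cast this
  have e : 2 * c ^ 2 = 0 := by
    push_cast at k1 k2 k3
    linear_combination k3 - 2 * k2 + k1
  exact pow_eq_zero_iff two_ne_zero |>.mp ((mul_eq_zero.mp e).resolve_left h2)

end Pool.Agent.H502.SM
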