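import Pool.Agent.H502.SM.Cor1

/-!
# Kernels: the Frattini argument
-/

set_option autoImplicit false

open Matrix

namespace Pool.Agent.H502.SM

variable {Γ : Type*} [Group Γ] [Finite Γ] {k : Type*} [Field k]

lemma nil_prop {N N' : Matrix (Fin 2) (Fin 2) k} (h : N * N = 0) (h' : N' * N' = 0)
    (ht : (N * N').trace = 0) (hN : N ≠ 0) : ∃ b : k, N' = b • N := by
  obtain ⟨h1, h2⟩ := entries h
  obtain ⟨h1', h2'⟩ := entries h'
  have h0 := nil_comm h h' ht
  have e00 := congrFun (congrFun h0 0) 0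
  have e01 := congrFun (congrFun h0 0) 1
  have e10 := congrFun (congrFun h0 1) 0
  have e11 := congrFun (congrFun h0 1) 1
  simp only [Matrix.mul_apply, Fin.sum_univ_two, Matrix.zero_apply, h1, h1'] at e00 e01 e10 e11
  by_cases hb : N 0 1 = 0
  · by_cases hc : N 1 0 = 0
    · exfalso
      apply hN
      have ha : N 0 0 = 0 := by
        rw [hb, zero_mul, add_zero] at h2
        exact mul_self_eq_zero.mp h2
      ext i j
      fin_cases i <;> fin_cases j <;> simp [ha, hb, hc, h1]
    · refine ⟨N' 1 0 / N 1 0, ?_⟩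
      ext i j
      fin_cases i <;> fin_cases j <;> simp [h1, h1']
      · field_simp; linear_combination e10
      · field_simp; linear_combination e11 - e00
      · field_simp
      · field_simp; linear_combination e10
  · refine ⟨N' 0 1 / N 0 1, ?_⟩
    ext i j
    fin_cases i <;> fin_cases j <;> simp [h1, h1']
    · field_simp; linear_combination -e01
    · field_simp
    · field_simp; linear_combination e00 - e11
    · field_simp; linear_combination -e01

lemma comm_form {N X : Matrix (Fin 2) (Fin 2) k} (h : N * N = 0) (hN : N ≠ 0)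
    (hX : X * N = N * X) : ∃ a b : k, X = a • 1 + b • N := by
  obtain ⟨h1, h2⟩ := entries h
  have e00 := congrFun (congrFun hX 0) 0
  have e01 := congrFun (congrFun hX 0) 1
  have e10 := congrFun (congrFun hX 1) 0
  simp only [Matrix.mul_apply, Fin.sum_univ_two, h1] at e00 e01 e10
  by_cases hb : N 0 1 = 0
  · by_cases hc : N 1 0 = 0
    · exfalso
      apply hN
      have ha : N 0 0 = 0 := by
        rw [hb, zero_mul, add_zero] at h2
        exact mul_self_eq_zero.mp h2
      ext i j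
      fin_cases i <;> fin_cases j <;> simp [ha, hb, hc, h1]
    · refine ⟨X 0 0 - X 1 0 / N 1 0 * N 0 0, X 1 0 / N 1 0, ?_⟩
      ext i j
      fin_cases i <;> fin_cases j <;> simp [h1]
      · field_simp; linear_combination e00
      · field_simp
      · field_simp; linear_combination e10
  · refine ⟨X 0 0 - X 0 1 / N 0 1 * N 0 0, X 0 1 / N 0 1, ?_⟩
    ext i j
    fin_cases i <;> fin_cases j <;> simp [h1]
    · field_simp
    · field_simp; linear_combination -e00
    · field_simp; linear_combination -e01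

lemma comm_comm {N X Y : Matrix (Fin 2) (Fin 2) k} (h : N * N = 0) (hN : N ≠ 0)
    (hX : X * N = N * X) (hY : Y * N = N * Y) : X * Y = Y * X := by
  obtain ⟨a, b, rfl⟩ := comm_form h hN hX
  rw [add_mul, mul_add, smul_mul_assoc, one_mul, mul_smul_comm, mul_one, smul_mul_assoc,
    mul_smul_comm, hY]

variable {p : ℕ} [hp : Fact p.Prime] [CharP k p]

/-- `ρ` contains `SL_2(F)` up to scalars -/
def HasSL {F : Type*} [Field F] (ι : F →+* k) (ρ : Γ →* GL (Fin 2) k) : Prop :=
  ∀ B : Matrix (Fin 2) (Fin 2) F, B.det = 1 → ∃ x : Γ, ∃ c : k, mm ρ x = c • B.map ι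

omit hp in
lemma two_ne (h5 : 5 ≤ p) : (2 : k) ≠ 0 := by
  have : ((2 : ℕ) : k) ≠ 0 := by
    rw [Ne, CharP.cast_eq_zero_iff k p]
    intro h
    exact absurd (Nat.le_of_dvd two_pos h) (by omega)
  exact_mod_cast this

omit hp in
lemma three_ne (h5 : 5 ≤ p) : (3 : k) ≠ 0 := by
  have : ((3 : ℕ) : k) ≠ 0 := by
    rw [Ne, CharP.cast_eq_zero_iff k p]
    intro h
    exact absurd (Nat.le_of_dvd (by norm_num) h) (by omega)
  exact_mod_cast this

/-- **Lemma U.** Unipotent elements of `SL_2(F)` are images of elements of `p`-power order -/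
lemma lemU {F : Type*} [Field F] (h5 : 5 ≤ p) (ι : F →+* k) (ρ : Γ →* GL (Fin 2) k) (hS : HasSL ι ρ)
    {B : Matrix (Fin 2) (Fin 2) F} (hB : Uni B) :
    ∃ g : Γ, mm ρ g = B.map ι ∧ ∃ a, g ^ p ^ a = 1 := by
  obtain ⟨x, c, hx⟩ := hS B hB.det
  obtain ⟨n, a, hn, ha⟩ := exists_pow p Γ
  have hBι := uni_map ι hB
  have h1 : mm ρ (x ^ n) = c ^ n • B.map ι := by
    rw [mm_pow, hx, smul_pow, hBι.pow, cast_one_of_modEq (k := k) hn, one_smul, add_sub_cancel]
  have h2 : c ^ n = 1 := by
    have h3 := (uni_of_ppow (p := p) ρ (ha x)).trace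
    rw [h1, Matrix.trace_smul, hBι.trace, smul_eq_mul] at h3
    exact mul_right_cancel₀ (two_ne (k := k) h5) (h3.trans (one_mul 2).symm)
  exact ⟨x ^ n, by rw [h1, h2, one_smul], a, ha x⟩

lemma uni_third {F : Type*} [Field F] : Uni (!![0, 1; -1, 2] : Matrix (Fin 2) (Fin 2) F) := by
  unfold Uni
  ext i j
  fin_cases i <;> fin_cases j <;> simp [Matrix.mul_apply, Fin.sum_univ_two] <;> ring

/-- **Lemma S.** -/
lemma lemS {F : Type*} [Field F] (h5 : 5 ≤ p) (ι : F →+* k) (ρ σ : Γ →* GL (Fin 2) k)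
    (hS : HasSL ι ρ) (hA : ∀ z, σ z = 1 → Uni (mm ρ z) → ρ z = 1) {n : Γ} (hn : σ n = 1) :
    mm ρ n = mm ρ n 0 0 • 1 := by
  obtain ⟨g, hg, -⟩ := lemU h5 ι ρ hS (uni_Up (1 : F))
  obtain ⟨h, hh, -⟩ := lemU h5 ι ρ hS (uni_Lo (1 : F))
  obtain ⟨t, ht, -⟩ := lemU h5 ι ρ hS (uni_third (F := F))
  have e1 := lemM h5 ρ σ hA hn (g := g) (by rw [hg]; exact uni_map ι (uni_Up _))
  have e2 := lemM h5 ρ σ hA hn (g := h) (by rw [hh]; exact uni_map ι (uni_Lo _))
  have e3 := lemM h5 ρ σ hA hn (g := t) (by rw [ht]; exact uni_map ι uni_third)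
  apply scalar_of
  · have : mm ρ g - 1 = !![0, 1; 0, 0] := by
      rw [hg]
      ext i j
      fin_cases i <;> fin_cases j <;> simp [Up]
    rwa [this] at e1
  · have : mm ρ h - 1 = !![0, 0; 1, 0] := by
      rw [hh]
      ext i j
      fin_cases i <;> fin_cases j <;> simp [Lo]
    rwa [this] at e2
  · have : mm ρ t - 1 = !![-1, 1; -1, 1] := by
      rw [ht]
      ext i j
      fin_cases i <;> fin_cases j <;> simp
      rw [map_ofNat]; norm_num
    rwa [this] at e3

end Pool.Agent.H502.SM
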