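import Pool.Agent.H502.SM.Cor2

/-!
# Kernels: the Frattini argument
-/

set_option autoImplicit false

open Matrix

namespace Pool.Agent.H502.SM

variable {Γ : Type*} [Group Γ] [Finite Γ] {k : Type*} [Field k]

omit [Finite Γ] in
lemma mm_inv_of (ρ : Γ →* GL (Fin 2) k) {x : Γ} {X Y : Matrix (Fin 2) (Fin 2) k} (h : mm ρ x = X)
    (hXY : X * Y = 1) : mm ρ x⁻¹ = Y := by
  calc mm ρ x⁻¹ = mm ρ x⁻¹ * (X * Y) := by rw [hXY, mul_one]
    _ = (mm ρ x⁻¹ * mm ρ x) * Y := by rw [← h, mul_assoc]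
    _ = Y := by rw [mm_inv_mul, one_mul]

omit [Finite Γ] in
lemma comm_calc (ρ : Γ →* GL (Fin 2) k) {g h : Γ} (hg : mm ρ g = Up 1) (hh : mm ρ h = Lo 1) :
    mm ρ (g * h * g⁻¹ * h⁻¹) = !![3, -1; 1, 0] := by
  have hg' : mm ρ g⁻¹ = Up (-1) := mm_inv_of ρ hg (by
    ext i j; fin_cases i <;> fin_cases j <;> simp [Up, Matrix.mul_apply, Fin.sum_univ_two])
  have hh' : mm ρ h⁻¹ = Lo (-1) := mm_inv_of ρ hh (by
    ext i j; fin_cases i <;> fin_cases j <;> simp [Lo, Matrix.mul_apply, Fin.sum_univ_two])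
  rw [mm_mul, mm_mul, mm_mul, hg, hh, hg', hh']
  ext i j; fin_cases i <;> fin_cases j <;>
    simp [Up, Lo, Matrix.mul_apply, Fin.sum_univ_two] <;> norm_num

omit [Finite Γ] in
lemma comm_calc' (ρ : Γ →* GL (Fin 2) k) {g h : Γ} (hg : mm ρ g = Up 1) (hh : mm ρ h = Lo 1) :
    mm ρ (g * h⁻¹ * g⁻¹ * h) = !![1, 1; 1, 2] := by
  have hg' : mm ρ g⁻¹ = Up (-1) := mm_inv_of ρ hg (by
    ext i j; fin_cases i <;> fin_cases j <;> simp [Up, Matrix.mul_apply, Fin.sum_univ_two])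
  have hh' : mm ρ h⁻¹ = Lo (-1) := mm_inv_of ρ hh (by
    ext i j; fin_cases i <;> fin_cases j <;> simp [Lo, Matrix.mul_apply, Fin.sum_univ_two])
  rw [mm_mul, mm_mul, mm_mul, hg, hh, hg', hh']
  ext i j; fin_cases i <;> fin_cases j <;>
    simp [Up, Lo, Matrix.mul_apply, Fin.sum_univ_two] <;> norm_num

omit [Finite Γ] in
lemma comm_calc2 (ρ : Γ →* GL (Fin 2) k) {A B : Γ} (hA : mm ρ A = !![3, -1; 1, 0])
    (hB : mm ρ B = !![1, 1; 1, 2]) :
    mm ρ (A * B * A⁻¹ * B⁻¹) = !![-7, 6; -6, 5] := by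
  have hA' : mm ρ A⁻¹ = !![0, 1; -1, 3] := mm_inv_of ρ hA (by
    ext i j; fin_cases i <;> fin_cases j <;> simp [Matrix.mul_apply, Fin.sum_univ_two])
  have hB' : mm ρ B⁻¹ = !![2, -1; -1, 1] := mm_inv_of ρ hB (by
    ext i j; fin_cases i <;> fin_cases j <;> simp [Matrix.mul_apply, Fin.sum_univ_two] <;> norm_num)
  rw [mm_mul, mm_mul, mm_mul, hA, hB, hA', hB']
  ext i j; fin_cases i <;> fin_cases j <;>
    simp [Matrix.mul_apply, Fin.sum_univ_two] <;> norm_num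

variable {p : ℕ} [hp : Fact p.Prime] [CharP k p]

/-- **Lemma F** -/
lemma lemF {F : Type*} [Field F] (h5 : 5 ≤ p) (ι : F →+* k) (ρ σ : Γ →* GL (Fin 2) k)
    (hS : HasSL ι ρ) (hA : ∀ z, σ z = 1 → Uni (mm ρ z) → ρ z = 1) :
    ∀ z, ρ z = 1 → Uni (mm σ z) → σ z = 1 := by
  intro z hz hu
  by_contra hne
  obtain ⟨a, m, hm, hc⟩ := Nat.exists_eq_pow_mul_and_not_dvd (n := Nat.card Γ) Nat.card_pos.ne' p
    hp.out.ne_one
  have hz1 : (z ^ m) ^ p ^ a = 1 := by rw [← pow_mul, mul_comm m, ← hc, pow_card_eq_one']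
  have hzk : z ^ m ∈ ρ.ker := by rw [MonoidHom.mem_ker, map_pow, hz, one_pow]
  have hs1 : σ (z ^ m) ≠ 1 := by
    intro h
    have h1 : mm σ (z ^ m) = 1 := (mm_eq_one σ).mpr h
    rw [mm_pow, hu.pow] at h1
    have h6 : (m : k) • (mm σ z - 1) = 0 := by
      have := congrArg (fun t => t - 1) h1
      simpa using this
    rcases smul_eq_zero.mp h6 with h7 | h7
    · rw [CharP.cast_eq_zero_iff k p] at h7
      exact hm h7
    · exact hne ((mm_eq_one σ).mp (sub_eq_zero.mp h7))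
  -- a Sylow subgroup of the kernel containing it
  have hPz : IsPGroup p (Subgroup.zpowers (⟨z ^ m, hzk⟩ : ρ.ker)) := by
    rintro ⟨w, hw⟩
    obtain ⟨j, rfl⟩ := hw
    refine ⟨a, ?_⟩
    apply Subtype.ext
    apply Subtype.ext
    simp only [Subgroup.coe_pow, Subgroup.coe_zpow, Subgroup.coe_one]
    rw [← zpow_natCast, ← _root_.zpow_mul, mul_comm, _root_.zpow_mul, zpow_natCast, hz1, _root_.one_zpow]
  obtain ⟨P, hP⟩ := hPz.exists_le_sylow
  set PP : Subgroup Γ := P.1.map ρ.ker.subtype with hPP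
  have hzP : z ^ m ∈ PP := ⟨⟨z ^ m, hzk⟩, hP (Subgroup.mem_zpowers _), rfl⟩
  have hPPu : ∀ w ∈ PP, Uni (mm σ w) := by
    rintro w ⟨w', hw', rfl⟩
    obtain ⟨j, hj⟩ := P.2 ⟨w', hw'⟩
    apply uni_of_ppow (p := p) (a := j)
    have := congrArg (fun t => ((t : P) : ρ.ker).1) hj
    simpa using this
  have hfr : ∀ x : Γ, ∃ y ∈ Subgroup.normalizer (PP : Set Γ), ρ y = ρ x := by
    intro x
    have h1 : x ∈ (Subgroup.normalizer (PP : Set Γ) ⊔ ρ.ker : Subgroup Γ) := by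
      rw [hPP, Sylow.normalizer_sup_eq_top P]; exact Subgroup.mem_top x
    rw [← SetLike.mem_coe, Subgroup.mul_normal] at h1
    obtain ⟨y, hy, n, hn, rfl⟩ := h1
    exact ⟨y, hy, by simp [MonoidHom.mem_ker.mp hn]⟩
  -- the image of the Sylow subgroup
  set Q : Subgroup (GL (Fin 2) k) := PP.map σ with hQ
  have hQp : IsPGroup p Q := by
    rintro ⟨w, w', hw', rfl⟩
    obtain ⟨w'', hw'', rfl⟩ := hw'
    obtain ⟨j, hj⟩ := P.2 ⟨w'', hw''⟩
    refine ⟨j, ?_⟩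
    apply Subtype.ext
    have h1 := congrArg (fun t => ((t : P) : ρ.ker).1) hj
    have h2 : (w'' : Γ) ^ p ^ j = 1 := by simpa using h1
    simp only [Subgroup.coe_pow, Subgroup.coe_one, Subgroup.coe_subtype]
    rw [← map_pow, h2, map_one]
  have : Finite Q := by
    have : (Q : Set (GL (Fin 2) k)).Finite := by
      apply Set.Finite.subset (Set.finite_range σ)
      rintro _ ⟨w, _, rfl⟩
      exact ⟨w, rfl⟩
    exact this
  have : Nontrivial Q := ⟨⟨⟨σ (z ^ m), z ^ m, hzP, rfl⟩, 1, fun h => hs1 (congrArg Subtype.val h)⟩⟩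
  have := hQp.center_nontrivial
  obtain ⟨⟨⟨c0, w0, hw0, hc0⟩, hcen⟩, hc1⟩ := exists_ne (1 : Subgroup.center Q)
  have hcomm : ∀ w ∈ PP, σ w * σ w0 = σ w0 * σ w := by
    intro w hw
    rw [Subgroup.mem_center_iff] at hcen
    have := congrArg Subtype.val (hcen ⟨σ w, w, hw, rfl⟩)
    simp only [Subgroup.coe_mul] at this
    rw [hc0]; exact this
  have hw0u : Uni (mm σ w0) := hPPu w0 hw0
  have hN0 : mm σ w0 - 1 ≠ 0 := by
    intro h
    apply hc1
    apply Subtype.ext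
    apply Subtype.ext
    change c0 = 1
    rw [← hc0]
    exact (mm_eq_one σ).mp (sub_eq_zero.mp h)
  set N := mm σ w0 - 1 with hN
  have hNN : N * N = 0 := hw0u
  have hprop : ∀ w ∈ PP, ∃ b : k, mm σ w - 1 = b • N := by
    intro w hw
    have h1 : mm σ w * mm σ w0 = mm σ w0 * mm σ w := congrArg Units.val (hcomm w hw)
    have h2 : (mm σ w - 1) * N = N * (mm σ w - 1) := by
      rw [hN]
      calc (mm σ w - 1) * (mm σ w0 - 1) = mm σ w * mm σ w0 - mm σ w - mm σ w0 + 1 := by noncomm_ring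
        _ = mm σ w0 * mm σ w - mm σ w - mm σ w0 + 1 := by rw [h1]
        _ = (mm σ w0 - 1) * (mm σ w - 1) := by noncomm_ring
    refine nil_prop hNN (hPPu w hw) ?_ hN0
    apply IsNilpotent.eq_zero
    apply Matrix.isNilpotent_trace_of_isNilpotent
    refine ⟨2, ?_⟩
    rw [pow_two]
    calc N * (mm σ w - 1) * (N * (mm σ w - 1)) = N * ((mm σ w - 1) * N) * (mm σ w - 1) := by
          simp only [mul_assoc]
      _ = 0 := by rw [h2, ← mul_assoc, hNN]; simp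
  have hnorm : ∀ y ∈ Subgroup.normalizer (PP : Set Γ), ∃ b : k, b ≠ 0 ∧
      mm σ y * N = b • (N * mm σ y) := by
    intro y hy
    have h1 : y * w0 * y⁻¹ ∈ PP := ((Subgroup.mem_normalizer_iff.mp hy) w0).mp hw0
    obtain ⟨b, hb⟩ := hprop _ h1
    have h2 : mm σ (y * w0 * y⁻¹) - 1 = mm σ y * N * mm σ y⁻¹ := by
      rw [mm_mul, mm_mul, hN, mul_sub, sub_mul, mul_one, mm_mul_inv]
    have h3 : mm σ y * N = b • (N * mm σ y) := by
      rw [h2] at hb
      calc mm σ y * N = mm σ y * N * (mm σ y⁻¹ * mm σ y) := by rw [mm_inv_mul, mul_one]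
        _ = (mm σ y * N * mm σ y⁻¹) * mm σ y := by simp only [mul_assoc]
        _ = b • (N * mm σ y) := by rw [hb, smul_mul_assoc]
    refine ⟨b, ?_, h3⟩
    rintro rfl
    rw [zero_smul] at h3
    apply hN0
    calc N = mm σ y⁻¹ * (mm σ y * N) := by rw [← mul_assoc, mm_inv_mul, one_mul]
      _ = 0 := by rw [h3, mul_zero]
  have hD : ∀ {y w : Γ} {b b' : k}, mm σ y * N = b • (N * mm σ y) → mm σ w * N = b' • (N * mm σ w) →
      mm σ (y * w) * N = (b * b') • (N * mm σ (y * w)) := by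
    intro y w b b' h1 h2
    rw [mm_mul, mul_assoc, h2, mul_smul_comm, ← mul_assoc, h1, smul_mul_assoc, smul_smul, mul_assoc,
      mul_comm b']
  have hDi : ∀ {y : Γ} {b : k}, b ≠ 0 → mm σ y * N = b • (N * mm σ y) →
      mm σ y⁻¹ * N = b⁻¹ • (N * mm σ y⁻¹) := by
    intro y b hb h1
    have : b • (mm σ y⁻¹ * N) = N * mm σ y⁻¹ := by
      calc b • (mm σ y⁻¹ * N) = b • (mm σ y⁻¹ * N * (mm σ y * mm σ y⁻¹)) := by
            rw [mm_mul_inv, mul_one]
        _ = mm σ y⁻¹ * (b • (N * mm σ y)) * mm σ y⁻¹ := by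
            rw [mul_smul_comm, smul_mul_assoc]; simp only [mul_assoc]
        _ = N * mm σ y⁻¹ := by rw [← h1, ← mul_assoc, mm_inv_mul, one_mul]
    rw [← this, smul_smul, inv_mul_cancel₀ hb, one_smul]
  obtain ⟨g, hg, -⟩ := lemU h5 ι ρ hS (uni_Up (1 : F))
  obtain ⟨h, hh, -⟩ := lemU h5 ι ρ hS (uni_Lo (1 : F))
  obtain ⟨y, hy, hyg⟩ := hfr g
  obtain ⟨w, hw, hwh⟩ := hfr h
  have hy1 : mm ρ y = Up 1 := by
    change (ρ y).val = _
    rw [hyg]; change mm ρ g = _; rw [hg]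
    ext i j; fin_cases i <;> fin_cases j <;> simp [Up]
  have hw1 : mm ρ w = Lo 1 := by
    change (ρ w).val = _
    rw [hwh]; change mm ρ h = _; rw [hh]
    ext i j; fin_cases i <;> fin_cases j <;> simp [Lo]
  obtain ⟨b, hb0, hb⟩ := hnorm y hy
  obtain ⟨b', hb0', hb'⟩ := hnorm w hw
  have hAc : mm σ (y * w * y⁻¹ * w⁻¹) * N = N * mm σ (y * w * y⁻¹ * w⁻¹) := by
    have := hD (hD (hD hb hb') (hDi hb0 hb)) (hDi hb0' hb')
    rw [this]
    have e : b * b' * b⁻¹ * b'⁻¹ = 1 := by field_simp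
    rw [e, one_smul]
  have hBc : mm σ (y * w⁻¹ * y⁻¹ * w) * N = N * mm σ (y * w⁻¹ * y⁻¹ * w) := by
    have := hD (hD (hD hb (hDi hb0' hb')) (hDi hb0 hb)) hb'
    rw [this]
    have e : b * b'⁻¹ * b⁻¹ * b' = 1 := by field_simp
    rw [e, one_smul]
  have hAB := comm_comm hNN hN0 hAc hBc
  set A := y * w * y⁻¹ * w⁻¹
  set B := y * w⁻¹ * y⁻¹ * w
  have hσ : σ (A * B * A⁻¹ * B⁻¹) = 1 := by
    rw [← mm_eq_one, mm_mul, mm_mul, mm_mul, hAB, mul_assoc (mm σ B), mm_mul_inv, mul_one, mm_mul_inv]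
  have hρ := comm_calc2 ρ (comm_calc ρ hy1 hw1) (comm_calc' ρ hy1 hw1)
  have hsc := lemS h5 ι ρ σ hS hA hσ
  have h01 := congrFun (congrFun hsc 0) 1
  rw [hρ] at h01
  simp at h01
  have h2 := two_ne (k := k) h5
  have h3 := three_ne (k := k) h5
  have h6 : (2 : k) * 3 = 0 := by rw [← h01]; norm_num
  exact (mul_ne_zero h2 h3) h6

end Pool.Agent.H502.SM
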