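import Pool.Agent.H502.SM.Cor3
import Pool.Agent.H502.SM.Cnt

/-!
# The case of a unipotent element in the kernel
-/

set_option autoImplicit false

open Matrix

namespace Pool.Agent.H502.SM

section gen
variable {F : Type*} [Field F]

/-- `SL_2` is generated by the unipotent elements -/
lemma sl_induction (W : Matrix (Fin 2) (Fin 2) F → Prop) (hmul : ∀ B C, W B → W C → W (B * C))
    (hU : ∀ b, W (Up b)) (hL : ∀ b, W (Lo b)) (B : Matrix (Fin 2) (Fin 2) F) (hB : B.det = 1) :
    W B := by
  have key : ∀ B : Matrix (Fin 2) (Fin 2) F, B.det = 1 → B 1 0 ≠ 0 → W B := by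
    intro B hB hc
    have e : B = Up ((B 0 0 - 1) / B 1 0) * Lo (B 1 0) * Up ((B 1 1 - 1) / B 1 0) := by
      rw [Matrix.det_fin_two] at hB
      ext i j
      fin_cases i <;> fin_cases j <;> simp [Up, Lo, Matrix.mul_apply, Fin.sum_univ_two] <;> field_simp
      · ring
      · linear_combination -hB
      · ring
    rw [e]
    exact hmul _ _ (hmul _ _ (hU _) (hL _)) (hU _)
  by_cases hc : B 1 0 = 0
  · have e : B = (B * Lo 1) * Lo (-1) := by
      rw [mul_assoc]
      have : (Lo 1 * Lo (-1) : Matrix (Fin 2) (Fin 2) F) = 1 := by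
        ext i j; fin_cases i <;> fin_cases j <;> simp [Lo, Matrix.mul_apply, Fin.sum_univ_two]
      rw [this, mul_one]
    rw [e]
    refine hmul _ _ (key _ ?_ ?_) (hL _)
    · rw [Matrix.det_mul, hB, one_mul]
      simp [Lo, Matrix.det_fin_two]
    · simp [Lo, Matrix.mul_apply, Fin.sum_univ_two, hc]
      rw [Matrix.det_fin_two, hc, mul_zero, sub_zero] at hB
      intro h0
      rw [h0, mul_zero] at hB
      exact zero_ne_one hB
  · exact key B hB hc

lemma conj_calc {x y z : F} (hz : z ≠ 0) (h : y * z = - (x * x)) :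
    !![0, 1 / z; -z, x] * !![1 + x, y; z, 1 - x] * !![x, -1 / z; z, 0] = Up (-1 / z) := by
  ext i j
  fin_cases i <;> fin_cases j <;>
    simp [Matrix.mul_apply, Fin.sum_univ_two, Up] <;> field_simp
  · ring
  · linear_combination (-z) * h
  · ring

/-- a unipotent element is conjugate to an upper triangular one -/
lemma uni_conj {A : Matrix (Fin 2) (Fin 2) F} (hA : Uni A) (hA1 : A ≠ 1) :
    ∃ (P P' : Matrix (Fin 2) (Fin 2) F) (b : F), P.det = 1 ∧ P' * P = 1 ∧ P * P' = 1 ∧ b ≠ 0 ∧
      P' * A * P = Up b := by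
  obtain ⟨h1, h2⟩ := entries (N := A - 1) hA
  by_cases hz : (A - 1) 1 0 = 0
  · refine ⟨1, 1, (A - 1) 0 1, by simp, by simp, by simp, ?_, ?_⟩
    · intro hb
      apply hA1
      rw [hb, zero_mul, add_zero] at h2
      have ha : (A - 1) 0 0 = 0 := mul_self_eq_zero.mp h2
      rw [ha] at h1
      rw [← sub_eq_zero]
      ext i j
      fin_cases i <;> fin_cases j
      · exact ha
      · exact hb
      · exact hz
      · change (A - 1) 1 1 = 0
        rw [h1, neg_zero]
    · rw [hz, mul_zero, add_zero] at h2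
      have ha : (A - 1) 0 0 = 0 := mul_self_eq_zero.mp h2
      rw [ha] at h1
      have e00 : A 0 0 = 1 := by
        have : A 0 0 - 1 = 0 := by simpa using ha
        linear_combination this
      have e11 : A 1 1 = 1 := by
        have : A 1 1 - 1 = 0 := by simpa using h1
        linear_combination this
      have e10 : A 1 0 = 0 := by simpa using hz
      ext i j
      fin_cases i <;> fin_cases j <;> simp [Up, e00, e11, e10]
  · set z := (A - 1) 1 0 with hzd
    set x := (A - 1) 0 0 with hxd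
    have e00 : A 0 0 = 1 + x := by
      have : A 0 0 - 1 = x := by rw [hxd]; simp
      linear_combination this
    have e11 : A 1 1 = 1 - x := by
      have : A 1 1 - 1 = - x := by rw [← h1]; simp
      linear_combination this
    have e10 : A 1 0 = z := by rw [hzd]; simp
    have e01 : A 0 1 * z = - (x * x) := by
      have : A 0 1 = (A - 1) 0 1 := by simp
      rw [this]; linear_combination h2
    refine ⟨!![x, -1 / z; z, 0], !![0, 1 / z; -z, x], -1 / z, ?_, ?_, ?_, ?_, ?_⟩
    · rw [Matrix.det_fin_two]; simp; field_simp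
    · ext i j; fin_cases i <;> fin_cases j <;> simp [Matrix.mul_apply, Fin.sum_univ_two] <;> field_simp
      ring
    · ext i j; fin_cases i <;> fin_cases j <;> simp [Matrix.mul_apply, Fin.sum_univ_two] <;> field_simp
      ring
    · exact div_ne_zero (neg_ne_zero.mpr one_ne_zero) hz
    · have hAe : A = !![1 + x, A 0 1; z, 1 - x] := by
        ext i j
        fin_cases i <;> fin_cases j
        · exact e00
        · rfl
        · exact e10
        · exact e11
      rw [hAe]
      exact conj_calc hz e01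

end gen

variable {Γ : Type*} [Group Γ] {k : Type*} [Field k] {F : Type*} [Field F]

/-- the image of `ρ` is `SL_2(F)` up to scalars of `k` and elements of `GL_2(F)` -/
structure Large (ι : F →+* k) (ρ : Γ →* GL (Fin 2) k) : Prop where
  sl : HasSL ι ρ
  form : ∀ x : Γ, ∃ c : k, ∃ A : GL (Fin 2) F, mm ρ x = c • A.val.map ι

/-- `B` is the image of an element of the kernel of `σ` -/
def InK (ι : F →+* k) (ρ σ : Γ →* GL (Fin 2) k) (B : Matrix (Fin 2) (Fin 2) F) : Prop :=
  ∃ z, σ z = 1 ∧ mm ρ z = B.map ι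

lemma InK.mul {ι : F →+* k} {ρ σ : Γ →* GL (Fin 2) k} {B C : Matrix (Fin 2) (Fin 2) F}
    (hB : InK ι ρ σ B) (hC : InK ι ρ σ C) : InK ι ρ σ (B * C) := by
  obtain ⟨z, hz, hz'⟩ := hB
  obtain ⟨w, hw, hw'⟩ := hC
  exact ⟨z * w, by rw [map_mul, hz, hw, one_mul], by rw [mm_mul, hz', hw', Matrix.map_mul]⟩

lemma InK.inv {ι : F →+* k} {ρ σ : Γ →* GL (Fin 2) k} {B C : Matrix (Fin 2) (Fin 2) F}
    (hB : InK ι ρ σ B) (hBC : B * C = 1) : InK ι ρ σ C := by
  obtain ⟨z, hz, hz'⟩ := hB
  refine ⟨z⁻¹, by rw [map_inv, hz, inv_one], mm_inv_of ρ hz' ?_⟩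
  rw [← Matrix.map_mul, hBC]
  exact Matrix.map_one _ (map_zero ι) (map_one ι)

lemma InK.conj {ι : F →+* k} {ρ σ : Γ →* GL (Fin 2) k} (hS : HasSL ι ρ)
    {B P P' : Matrix (Fin 2) (Fin 2) F}
    (hB : InK ι ρ σ B) (hP : P.det = 1) (hPP : P * P' = 1) : InK ι ρ σ (P' * B * P) := by
  obtain ⟨z, hz, hz'⟩ := hB
  obtain ⟨x, c, hx⟩ := hS P hP
  have hc : c ≠ 0 := by
    rintro rfl
    have := mm_det_ne ρ x
    rw [hx, zero_smul] at this
    simp at this
  have hx' : mm ρ x⁻¹ = c⁻¹ • P'.map ι := mm_inv_of ρ hx (by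
    rw [smul_mul_smul_comm, mul_inv_cancel₀ hc, one_smul, ← Matrix.map_mul, hPP]
    exact Matrix.map_one _ (map_zero ι) (map_one ι))
  refine ⟨x⁻¹ * z * x, by rw [map_mul, map_mul, hz, map_inv]; group, ?_⟩
  rw [mm_mul, mm_mul, hx', hx, hz', smul_mul_assoc, smul_mul_smul_comm, inv_mul_cancel₀ hc, one_smul,
    ← Matrix.map_mul, ← Matrix.map_mul]

/-- **Case A.** If the kernel of `σ` has an element whose image under `ρ` is unipotent and `≠ 1`, then
the image of the kernel contains `SL_2(F)`. -/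
lemma caseA {p : ℕ} [Fact p.Prime] [CharP k p] (h5 : 5 ≤ p) {ι : F →+* k}
    {ρ σ : Γ →* GL (Fin 2) k} (hL : Large ι ρ)
    {z : Γ} (hz : σ z = 1) (hu : Uni (mm ρ z)) (hne : ρ z ≠ 1) (B : Matrix (Fin 2) (Fin 2) F)
    (hB : B.det = 1) : InK ι ρ σ B := by
  have h2k := two_ne (k := k) h5
  have h2 : (2 : F) ≠ 0 := by
    intro h
    apply h2k
    rw [← map_ofNat ι 2]
    change ι 2 = 0
    rw [h, map_zero]
  obtain ⟨c, A, hA⟩ := hL.form z
  have htr : c * ι A.val.trace = 2 := by
    have := hu.trace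
    rw [hA, Matrix.trace_smul, smul_eq_mul] at this
    rw [← this]
    congr 1
    rw [Matrix.trace_fin_two, Matrix.trace_fin_two, map_add]
    rfl
  have ht0 : A.val.trace ≠ 0 := by
    intro h
    rw [h, map_zero, mul_zero] at htr
    exact h2k htr.symm
  set t := A.val.trace
  have hιt : ι t ≠ 0 := (map_ne_zero ι).mpr ht0
  set A' : Matrix (Fin 2) (Fin 2) F := (2 / t) • A.val with hA'
  have hzA : mm ρ z = A'.map ι := by
    rw [hA]
    ext i j
    simp only [hA', Matrix.smul_apply, Matrix.map_apply, smul_eq_mul, map_mul, map_div₀, map_ofNat]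
    rw [← htr]
    field_simp
  have hinj : ∀ {X Y : Matrix (Fin 2) (Fin 2) F}, X.map ι = Y.map ι → X = Y := by
    intro X Y h
    exact Matrix.map_injective ι.injective h
  have hA'u : Uni A' := by
    unfold Uni at hu ⊢
    apply hinj
    rw [Matrix.map_mul, Matrix.map_sub ι (map_sub ι), ← hzA, Matrix.map_one _ (map_zero ι) (map_one ι), hu]
    exact (Matrix.map_zero _ (map_zero ι)).symm
  have hA'1 : A' ≠ 1 := by
    intro h
    apply hne
    rw [← mm_eq_one, hzA, h]
    exact Matrix.map_one _ (map_zero ι) (map_one ι)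
  have hW : InK ι ρ σ A' := ⟨z, hz, hzA⟩
  obtain ⟨P, P', b, hP, hPP, hPP', hb, hPb⟩ := uni_conj hA'u hA'1
  have w1 : InK ι ρ σ (Up b) := by
    rw [← hPb]; exact hW.conj hL.sl hP hPP'
  have w0 : InK ι ρ σ (1 : Matrix (Fin 2) (Fin 2) F) :=
    ⟨1, map_one σ, by rw [mm_one]; exact (Matrix.map_one _ (map_zero ι) (map_one ι)).symm⟩
  have w2 : ∀ t : F, InK ι ρ σ (Up (t ^ 2 * b)) := by
    intro t
    by_cases ht : t = 0
    · subst ht
      have : (Up (0 ^ 2 * b) : Matrix (Fin 2) (Fin 2) F) = 1 := by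
        ext i j; fin_cases i <;> fin_cases j <;> simp [Up]
      rw [this]; exact w0
    · have := w1.conj hL.sl (P := !![t⁻¹, 0; 0, t]) (P' := !![t, 0; 0, t⁻¹]) (by
        rw [Matrix.det_fin_two]; simp [ht]) (by
        ext i j; fin_cases i <;> fin_cases j <;> simp [Matrix.mul_apply, Fin.sum_univ_two, ht])
      have e : (!![t, 0; 0, t⁻¹] * Up b * !![t⁻¹, 0; 0, t] : Matrix (Fin 2) (Fin 2) F) =
          Up (t ^ 2 * b) := by
        ext i j; fin_cases i <;> fin_cases j <;>
          simp [Up, Matrix.mul_apply, Fin.sum_univ_two, ht]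
        ring
      rw [← e]; exact this
  have w3 : ∀ {x y : F}, InK ι ρ σ (Up x) → InK ι ρ σ (Up y) → InK ι ρ σ (Up (x + y)) := by
    intro x y hx hy
    have := hx.mul hy
    have e : (Up x * Up y : Matrix (Fin 2) (Fin 2) F) = Up (x + y) := by
      ext i j; fin_cases i <;> fin_cases j <;>
          simp [Up, Matrix.mul_apply, Fin.sum_univ_two]
      ring
    rw [← e]; exact this
  have w4 : ∀ {x : F}, InK ι ρ σ (Up x) → InK ι ρ σ (Up (-x)) := by
    intro x hx
    apply hx.inv
    ext i j; fin_cases i <;> fin_cases j <;> simp [Up, Matrix.mul_apply, Fin.sum_univ_two]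
  have wU : ∀ x : F, InK ι ρ σ (Up x) := by
    intro x
    have e : x = ((x / b + 1) / 2) ^ 2 * b + -(((x / b - 1) / 2) ^ 2 * b) := by
      field_simp; ring
    rw [e]
    exact w3 (w2 _) (w4 (w2 _))
  have wL : ∀ x : F, InK ι ρ σ (Lo x) := by
    intro x
    have := (wU (-x)).conj hL.sl (P := !![0, 1; -1, 0]) (P' := !![0, -1; 1, 0]) (by
        rw [Matrix.det_fin_two]; simp) (by
        ext i j; fin_cases i <;> fin_cases j <;> simp [Matrix.mul_apply, Fin.sum_univ_two])
    have e : (!![0, -1; 1, 0] * Up (-x) * !![0, 1; -1, 0] : Matrix (Fin 2) (Fin 2) F) = Lo x := by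
      ext i j; fin_cases i <;> fin_cases j <;>
          simp [Up, Lo, Matrix.mul_apply, Fin.sum_univ_two]
    rw [← e]; exact this
  exact sl_induction _ (fun B C hB hC => hB.mul hC) wU wL B hB

/-- averaging -/
lemma avg [Fintype Γ] {I : Type*} [Fintype I] (s : I → Γ) (S W : Finset Γ) (M : ℕ) [DecidableEq Γ]
    (hW : ∀ x i, x * s i ∈ S → x ∈ W)
    (hM : ∀ x ∈ W, (Finset.univ.filter fun i => x * s i ∈ S).card ≤ M) :
    S.card * Fintype.card I ≤ W.card * M := by
  have h1 : ∀ i : I, (Finset.univ.filter fun x : Γ => x * s i ∈ S).card = S.card := by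
    intro i
    refine Finset.card_bij (fun x _ => x * s i) ?_ ?_ ?_
    · intro x hx; exact (Finset.mem_filter.mp hx).2
    · intro x _ y _ h; exact mul_right_cancel h
    · intro y hy
      exact ⟨y * (s i)⁻¹, Finset.mem_filter.mpr ⟨Finset.mem_univ _, by simpa using hy⟩, by simp⟩
  calc S.card * Fintype.card I = ∑ i : I, (Finset.univ.filter fun x : Γ => x * s i ∈ S).card := by
        simp only [h1, Finset.sum_const, Finset.card_univ, smul_eq_mul]; ring
    _ = ∑ i : I, (W.filter fun x : Γ => x * s i ∈ S).card := by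
        refine Finset.sum_congr rfl fun i _ => ?_
        congr 1
        ext x
        simp only [Finset.mem_filter, Finset.mem_univ, true_and]
        exact ⟨fun h => ⟨hW x i h, h⟩, fun h => h.2⟩
    _ = ∑ x ∈ W, (Finset.univ.filter fun i => x * s i ∈ S).card := by
        simp only [Finset.card_filter]
        rw [Finset.sum_comm]
    _ ≤ ∑ x ∈ W, M := Finset.sum_le_sum hM
    _ = W.card * M := by rw [Finset.sum_const, smul_eq_mul]

end Pool.Agent.H502.SM
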