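import Pool.Agent.H502.SM.Cor4

/-!
# The structure of the pair: the ring homomorphism
-/

set_option autoImplicit false

open Matrix

namespace Pool.Agent.H502.SM

variable {Γ : Type*} [Group Γ] {k : Type*} [Field k] {F : Type*} [Field F]

lemma up_map (ι : F →+* k) (b : F) : (Up b).map ι = Up (ι b) := by
  ext i j; fin_cases i <;> fin_cases j <;> simp [Up]

lemma lo_map (ι : F →+* k) (b : F) : (Lo b).map ι = Lo (ι b) := by
  ext i j; fin_cases i <;> fin_cases j <;> simp [Lo]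

lemma up_mul (a b : k) : Up a * Up b = Up (a + b) := by
  ext i j; fin_cases i <;> fin_cases j <;> simp [Up, Matrix.mul_apply, Fin.sum_univ_two]
  ring

lemma lo_mul (a b : k) : Lo a * Lo b = Lo (a + b) := by
  ext i j; fin_cases i <;> fin_cases j <;> simp [Lo, Matrix.mul_apply, Fin.sum_univ_two]

lemma up_zero : (Up 0 : Matrix (Fin 2) (Fin 2) k) = 1 := by
  ext i j; fin_cases i <;> fin_cases j <;> simp [Up]

lemma lo_zero : (Lo 0 : Matrix (Fin 2) (Fin 2) k) = 1 := by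
  ext i j; fin_cases i <;> fin_cases j <;> simp [Lo]

lemma up_inj {a b : k} (h : Up a = Up b) : a = b := by
  have := congrFun (congrFun h 0) 1
  simpa [Up] using this

lemma lo_inj {a b : k} (h : Lo a = Lo b) : a = b := by
  have := congrFun (congrFun h 1) 0
  simpa [Lo] using this

lemma trace_map (ι : F →+* k) (A : Matrix (Fin 2) (Fin 2) F) : (A.map ι).trace = ι A.trace := by
  rw [Matrix.trace_fin_two, Matrix.trace_fin_two, map_add]
  rfl

/-- both kernels are compared: the data after choosing a basis -/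
structure Pair (ι : F →+* k) (ρ σ : Γ →* GL (Fin 2) k) (g h : Γ) (l : k) : Prop where
  large : Large ι ρ
  hA : ∀ z, σ z = 1 → Uni (mm ρ z) → ρ z = 1
  g1 : mm ρ g = Up 1
  h1 : mm ρ h = Lo 1
  g2 : mm σ g = Up 1
  h2 : mm σ h = Lo l
  l0 : l ≠ 0

variable [Finite Γ] {p : ℕ} [hp : Fact p.Prime] [CharP k p]

section
variable {ι : F →+* k} {ρ σ : Γ →* GL (Fin 2) k} {g h : Γ} {l : k}

lemma Pair.ker (h5 : 5 ≤ p) (hP : Pair ι ρ σ g h l) {z : Γ} (hz : ρ z = 1) :
    ∃ s : k, mm σ z = s • 1 := by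
  have hB := lemF h5 ι ρ σ hP.large.sl hP.hA
  have e1 := lemM h5 σ ρ hB hz (g := g) (by rw [hP.g2]; exact uni_Up _)
  have e2 := lemM h5 σ ρ hB hz (g := h) (by rw [hP.h2]; exact uni_Lo _)
  have hh' : mm σ h⁻¹ = Lo (-l) := mm_inv_of σ hP.h2 (by rw [lo_mul, add_neg_cancel, lo_zero])
  have ht : mm σ (h * g * h⁻¹) = !![1 - l, 1; -l ^ 2, 1 + l] := by
    rw [mm_mul, mm_mul, hh', hP.h2, hP.g2]
    ext i j; fin_cases i <;> fin_cases j <;>
      simp [Up, Lo, Matrix.mul_apply, Fin.sum_univ_two] <;> ring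
  have e3 := lemM h5 σ ρ hB hz (g := h * g * h⁻¹) (by
    rw [ht]
    unfold Uni
    ext i j; fin_cases i <;> fin_cases j <;> simp [Matrix.mul_apply, Fin.sum_univ_two] <;> ring)
  rw [hP.g2] at e1
  rw [hP.h2] at e2
  rw [ht] at e3
  simp [Matrix.trace_fin_two, Matrix.mul_apply, Fin.sum_univ_two, Up, Lo] at e1 e2 e3
  have e2' := e2.resolve_right hP.l0
  refine ⟨(mm σ z) 0 0, ?_⟩
  rw [e1, e2'] at e3
  have e4 : l * (mm σ z 1 1 - mm σ z 0 0) = 0 := by linear_combination e3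
  have e5 := (mul_eq_zero.mp e4).resolve_left hP.l0
  ext i j
  fin_cases i <;> fin_cases j
  · simp
  · simp [e2']
  · simp [e1]
  · simp
    linear_combination e5

lemma Pair.eq_of (h5 : 5 ≤ p) (hP : Pair ι ρ σ g h l) {a b : Γ} (hab : mm ρ a = mm ρ b)
    (ha : (mm σ a).trace = 2) (hb : (mm σ b).trace = 2) : mm σ a = mm σ b := by
  have h1 : ρ (a * b⁻¹) = 1 := by
    rw [← mm_eq_one, mm_mul, hab, mm_mul_inv]
  obtain ⟨s, hs⟩ := hP.ker h5 h1
  have h2 : mm σ a = s • mm σ b := by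
    calc mm σ a = mm σ (a * b⁻¹) * mm σ b := by rw [← mm_mul, inv_mul_cancel_right]
      _ = s • mm σ b := by rw [hs, smul_mul_assoc, one_mul]
  have h3 : s = 1 := by
    rw [h2, Matrix.trace_smul, smul_eq_mul, hb] at ha
    exact mul_right_cancel₀ (two_ne (k := k) h5) (ha.trans (one_mul 2).symm)
  rw [h2, h3, one_smul]

omit [Finite Γ] in
lemma trace_conj (σ : Γ →* GL (Fin 2) k) (x a : Γ) : (mm σ (x * a * x⁻¹)).trace = (mm σ a).trace := by
  rw [mm_mul, mm_mul, Matrix.trace_mul_comm, ← mul_assoc, mm_inv_mul, one_mul]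

/-- conjugation -/
lemma Pair.conj (h5 : 5 ≤ p) (hP : Pair ι ρ σ g h l) {x a b : Γ}
    (hab : mm ρ x * mm ρ a = mm ρ b * mm ρ x)
    (ha : (mm σ a).trace = 2) (hb : (mm σ b).trace = 2) : mm σ x * mm σ a = mm σ b * mm σ x := by
  have h1 : mm ρ (x * a * x⁻¹) = mm ρ b := by
    rw [mm_mul, mm_mul, hab, mul_assoc, mm_mul_inv, mul_one]
  have h2 := hP.eq_of h5 h1 (by rw [trace_conj, ha]) hb
  rw [← h2, ← mm_mul, ← mm_mul, inv_mul_cancel_right]

omit [Finite Γ] hp [CharP k p] in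
lemma Pair.tr_g (hP : Pair ι ρ σ g h l) : (mm σ g).trace = 2 := by
  rw [hP.g2]; exact (uni_Up _).trace

omit [Finite Γ] hp [CharP k p] in
lemma Pair.tr_h (hP : Pair ι ρ σ g h l) : (mm σ h).trace = 2 := by
  rw [hP.h2]; exact (uni_Lo _).trace

/-- scalars -/
lemma Pair.scalar (h5 : 5 ≤ p) (hP : Pair ι ρ σ g h l) {x : Γ} {c : k} (hx : mm ρ x = c • 1) :
    ∃ s : k, mm σ x = s • 1 := by
  have e1 := hP.conj h5 (x := x) (a := g) (b := g) (by rw [hx]; simp) hP.tr_g hP.tr_g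
  have e2 := hP.conj h5 (x := x) (a := h) (b := h) (by rw [hx]; simp) hP.tr_h hP.tr_h
  rw [hP.g2] at e1
  obtain ⟨a1, a2⟩ := comm_Up e1
  have a3 := congrFun (congrFun e2 0) 0
  rw [hP.h2] at a3
  simp [Lo, Matrix.mul_apply, Fin.sum_univ_two] at a3
  have a4 := a3.resolve_right hP.l0
  refine ⟨(mm σ x) 0 0, ?_⟩
  ext i j
  fin_cases i <;> fin_cases j
  · simp
  · simp [a4]
  · simp [a1]
  · simp [a2]

lemma Pair.up (h5 : 5 ≤ p) (hP : Pair ι ρ σ g h l) (b : F) :
    ∃ β : k, ∃ x, mm ρ x = Up (ι b) ∧ mm σ x = Up β := by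
  obtain ⟨x, hx, a, ha⟩ := lemU h5 ι ρ hP.large.sl (uni_Up b)
  rw [up_map] at hx
  have hu := uni_of_ppow (p := p) σ ha
  have e1 := hP.conj h5 (x := x) (a := g) (b := g) (by
    rw [hx, hP.g1, up_mul, up_mul, add_comm]) hP.tr_g hP.tr_g
  rw [hP.g2] at e1
  obtain ⟨a1, a2⟩ := comm_Up e1
  have a3 := hu.trace
  rw [Matrix.trace_fin_two, ← a2] at a3
  have a4 : mm σ x 0 0 = 1 := by
    have : 2 * (mm σ x 0 0 - 1) = 0 := by linear_combination a3
    have := (mul_eq_zero.mp this).resolve_left (two_ne (k := k) h5)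
    linear_combination this
  refine ⟨mm σ x 0 1, x, hx, ?_⟩
  ext i j
  fin_cases i <;> fin_cases j
  · simpa [Up] using a4
  · simp [Up]
  · simpa [Up] using a1
  · change mm σ x 1 1 = _
    rw [← a2]; simpa [Up] using a4

lemma Pair.lo (h5 : 5 ≤ p) (hP : Pair ι ρ σ g h l) (b : F) :
    ∃ β : k, ∃ x, mm ρ x = Lo (ι b) ∧ mm σ x = Lo β := by
  obtain ⟨x, hx, a, ha⟩ := lemU h5 ι ρ hP.large.sl (uni_Lo b)
  rw [lo_map] at hx
  have hu := uni_of_ppow (p := p) σ ha
  have e1 := hP.conj h5 (x := x) (a := h) (b := h) (by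
    rw [hx, hP.h1, lo_mul, lo_mul, add_comm]) hP.tr_h hP.tr_h
  rw [hP.h2] at e1
  have b0 := congrFun (congrFun e1 0) 0
  have b1 := congrFun (congrFun e1 1) 0
  simp [Lo, Matrix.mul_apply, Fin.sum_univ_two] at b0 b1
  have a1 := b0.resolve_right hP.l0
  have a2 : mm σ x 0 0 = mm σ x 1 1 := by
    have : l * (mm σ x 0 0 - mm σ x 1 1) = 0 := by linear_combination -b1
    have := (mul_eq_zero.mp this).resolve_left hP.l0
    linear_combination this
  have a3 := hu.trace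
  rw [Matrix.trace_fin_two, ← a2] at a3
  have a4 : mm σ x 0 0 = 1 := by
    have : 2 * (mm σ x 0 0 - 1) = 0 := by linear_combination a3
    have := (mul_eq_zero.mp this).resolve_left (two_ne (k := k) h5)
    linear_combination this
  refine ⟨mm σ x 1 0, x, hx, ?_⟩
  ext i j
  fin_cases i <;> fin_cases j
  · simpa [Lo] using a4
  · simpa [Lo] using a1
  · simp [Lo]
  · change mm σ x 1 1 = _
    rw [← a2]; simpa [Lo] using a4

lemma Pair.up_unique (h5 : 5 ≤ p) (hP : Pair ι ρ σ g h l) {b : F} {β β' : k} {x x' : Γ}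
    (hx : mm ρ x = Up (ι b)) (hx' : mm ρ x' = Up (ι b)) (h1 : mm σ x = Up β) (h2 : mm σ x' = Up β') :
    β = β' := by
  have := hP.eq_of h5 (hx.trans hx'.symm) (by rw [h1]; exact (uni_Up _).trace)
    (by rw [h2]; exact (uni_Up _).trace)
  rw [h1, h2] at this
  exact up_inj this

lemma Pair.lo_unique (h5 : 5 ≤ p) (hP : Pair ι ρ σ g h l) {b : F} {β β' : k} {x x' : Γ}
    (hx : mm ρ x = Lo (ι b)) (hx' : mm ρ x' = Lo (ι b)) (h1 : mm σ x = Lo β) (h2 : mm σ x' = Lo β') :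
    β = β' := by
  have := hP.eq_of h5 (hx.trans hx'.symm) (by rw [h1]; exact (uni_Lo _).trace)
    (by rw [h2]; exact (uni_Lo _).trace)
  rw [h1, h2] at this
  exact lo_inj this

/-- **Structure theorem** -/
lemma Pair.struct (h5 : 5 ≤ p) (hP : Pair ι ρ σ g h l) : ∃ φ : F →+* k,
    (∀ B : Matrix (Fin 2) (Fin 2) F, B.det = 1 → ∃ y, mm ρ y = B.map ι ∧ mm σ y = B.map φ) ∧
    (∀ (x : Γ) (c : k) (A : GL (Fin 2) F), mm ρ x = c • A.val.map ι →
      ∃ c' : k, mm σ x = c' • A.val.map φ) := by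
  choose f hf using hP.up h5
  choose s hs using hP.lo h5
  have h2 := two_ne (k := k) h5
  have f_add : ∀ a b, f (a + b) = f a + f b := by
    intro a b
    obtain ⟨x, hx, hx'⟩ := hf a
    obtain ⟨y, hy, hy'⟩ := hf b
    obtain ⟨z, hz, hz'⟩ := hf (a + b)
    refine hP.up_unique h5 hz (x' := x * y) ?_ hz' ?_
    · rw [mm_mul, hx, hy, up_mul, map_add]
    · rw [mm_mul, hx', hy', up_mul]
  have f_one : f 1 = 1 := by
    obtain ⟨x, hx, hx'⟩ := hf 1
    exact hP.up_unique h5 hx (by rw [hP.g1, map_one]) hx' hP.g2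
  have f_zero : f 0 = 0 := by
    have := f_add 0 0
    rw [add_zero] at this
    linear_combination -this
  have f_neg : ∀ a, f (-a) = - f a := by
    intro a
    have := f_add a (-a)
    rw [add_neg_cancel, f_zero] at this
    linear_combination -this
  have s_one : s 1 = l := by
    obtain ⟨x, hx, hx'⟩ := hs 1
    exact hP.lo_unique h5 hx (by rw [hP.h1, map_one]) hx' hP.h2
  have s_zero : s 0 = 0 := by
    obtain ⟨x, hx, hx'⟩ := hs 0
    exact hP.lo_unique h5 hx (x' := 1) (by rw [mm_one, map_zero, lo_zero]) hx' (by rw [mm_one, lo_zero])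
  have s_ne : ∀ c : F, c ≠ 0 → s c ≠ 0 := by
    intro c hc h0
    obtain ⟨x, hx, hx'⟩ := hs c
    rw [h0, lo_zero] at hx'
    have h1 := lemS h5 ι ρ σ hP.large.sl hP.hA ((mm_eq_one σ).mp hx')
    have h3 := congrFun (congrFun h1 1) 0
    rw [hx] at h3
    simp [Lo] at h3
    exact hc h3
  -- the Weyl elements
  have key : ∀ a : F, a ≠ 0 → f a ≠ 0 ∧ s (-a⁻¹) = -(f a)⁻¹ ∧
      ∃ w, mm ρ w = !![0, ι a; -(ι a)⁻¹, 0] ∧ mm σ w = !![0, f a; -(f a)⁻¹, 0] := by
    intro a ha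
    have hιa : ι a ≠ 0 := (map_ne_zero ι).mpr ha
    obtain ⟨x, hx, hx'⟩ := hf a
    obtain ⟨y, hy, hy'⟩ := hs (-a⁻¹)
    have hw : mm ρ (x * y * x) = !![0, ι a; -(ι a)⁻¹, 0] := by
      rw [mm_mul, mm_mul, hx, hy]
      ext i j; fin_cases i <;> fin_cases j <;>
        simp [Up, Lo, Matrix.mul_apply, Fin.sum_univ_two, hιa]
    have hw2 : mm ρ (x * y * x * (x * y * x)) = (-1 : k) • 1 := by
      rw [mm_mul, hw]
      ext i j; fin_cases i <;> fin_cases j <;>
        simp [Matrix.mul_apply, Fin.sum_univ_two, hιa]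
    have hw' : mm σ (x * y * x) = !![1 + f a * s (-a⁻¹), f a * (1 + f a * s (-a⁻¹)) + f a;
        s (-a⁻¹), 1 + f a * s (-a⁻¹)] := by
      rw [mm_mul, mm_mul, hx', hy']
      ext i j; fin_cases i <;> fin_cases j <;>
        simp [Up, Lo, Matrix.mul_apply, Fin.sum_univ_two] <;> ring
    obtain ⟨t, ht⟩ := hP.scalar h5 hw2
    have e := congrFun (congrFun ht 1) 0
    rw [mm_mul, hw'] at e
    simp [Matrix.mul_apply, Fin.sum_univ_two] at e
    have hs0 := s_ne (-a⁻¹) (neg_ne_zero.mpr (inv_ne_zero ha))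
    have e1 : 1 + f a * s (-a⁻¹) = 0 := by
      have : (2 * s (-a⁻¹)) * (1 + f a * s (-a⁻¹)) = 0 := by linear_combination e
      exact (mul_eq_zero.mp this).resolve_left (mul_ne_zero h2 hs0)
    have hfa : f a ≠ 0 := by
      intro h0
      rw [h0, zero_mul, add_zero] at e1
      exact one_ne_zero e1
    have e2 : s (-a⁻¹) = -(f a)⁻¹ := by
      apply mul_left_cancel₀ hfa
      rw [mul_neg, mul_inv_cancel₀ hfa]
      linear_combination e1
    refine ⟨hfa, e2, x * y * x, hw, ?_⟩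
    rw [hw', e1, e2, mul_zero, zero_add]
  have f_sq : ∀ a : F, f (a ^ 2) = f a ^ 2 := by
    intro a
    by_cases ha : a = 0
    · subst ha; rw [zero_pow two_ne_zero, f_zero, zero_pow two_ne_zero]
    obtain ⟨hfa, -, w, hw, hw'⟩ := key a ha
    obtain ⟨-, -, v, hv, hv'⟩ := key (-1) (neg_ne_zero.mpr one_ne_zero)
    have hιa : ι a ≠ 0 := (map_ne_zero ι).mpr ha
    have ht : mm ρ (w * v) = !![ι a, 0; 0, (ι a)⁻¹] := by
      rw [mm_mul, hw, hv]
      ext i j; fin_cases i <;> fin_cases j <;>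
        simp [Matrix.mul_apply, Fin.sum_univ_two]
    have ht' : mm σ (w * v) = !![f a, 0; 0, (f a)⁻¹] := by
      rw [mm_mul, hw', hv', f_neg, f_one]
      ext i j; fin_cases i <;> fin_cases j <;>
        simp [Matrix.mul_apply, Fin.sum_univ_two]
    obtain ⟨u, hu, hu'⟩ := hf (a ^ 2)
    have e := hP.conj h5 (x := w * v) (a := g) (b := u) (by
      rw [ht, hP.g1, hu]
      ext i j; fin_cases i <;> fin_cases j <;>
        simp [Up, Matrix.mul_apply, Fin.sum_univ_two]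
      field_simp) hP.tr_g (by rw [hu']; exact (uni_Up _).trace)
    rw [ht', hP.g2, hu'] at e
    have e1 := congrFun (congrFun e 0) 1
    simp [Up, Matrix.mul_apply, Fin.sum_univ_two] at e1
    field_simp at e1
    linear_combination -e1
  have f_mul : ∀ a b : F, f (a * b) = f a * f b := by
    intro a b
    have e : (a + b) ^ 2 = a ^ 2 + (a * b + a * b) + b ^ 2 := by ring
    have e1 := f_sq (a + b)
    rw [e, f_add, f_add, f_add, f_add, f_sq, f_sq] at e1
    have : 2 * (f (a * b) - f a * f b) = 0 := by linear_combination e1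
    have := (mul_eq_zero.mp this).resolve_left h2
    linear_combination this
  let φ : F →+* k :=
    { toFun := f, map_one' := f_one, map_mul' := f_mul, map_zero' := f_zero, map_add' := f_add }
  have hφ : ∀ a, φ a = f a := fun _ => rfl
  have s_eq : ∀ c : F, s c = φ c := by
    intro c
    by_cases hc : c = 0
    · rw [hc, s_zero, map_zero]
    · obtain ⟨-, e, -⟩ := key (-c⁻¹) (neg_ne_zero.mpr (inv_ne_zero hc))
      rw [inv_neg, inv_inv, neg_neg, ← hφ, map_neg, map_inv₀, inv_neg, inv_inv, neg_neg] at e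
      exact e
  have hSL : ∀ B : Matrix (Fin 2) (Fin 2) F, B.det = 1 →
      ∃ y, mm ρ y = B.map ι ∧ mm σ y = B.map φ := by
    refine sl_induction _ ?_ ?_ ?_
    · rintro B C ⟨y, hy, hy'⟩ ⟨z, hz, hz'⟩
      exact ⟨y * z, by rw [mm_mul, hy, hz, Matrix.map_mul], by rw [mm_mul, hy', hz', Matrix.map_mul]⟩
    · intro b
      obtain ⟨x, hx, hx'⟩ := hf b
      exact ⟨x, by rw [hx, up_map], by rw [hx', up_map, hφ]⟩
    · intro b
      obtain ⟨x, hx, hx'⟩ := hs b
      exact ⟨x, by rw [hx, lo_map], by rw [hx', lo_map, s_eq]⟩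
  refine ⟨φ, hSL, ?_⟩
  intro x c A hx
  have hAi : (A⁻¹).val * A.val = 1 := by rw [← Units.val_mul, inv_mul_cancel, Units.val_one]
  have hAi' : A.val * (A⁻¹).val = 1 := by rw [← Units.val_mul, mul_inv_cancel, Units.val_one]
  have hdet : A.val.det * (A⁻¹).val.det = 1 := by rw [← Matrix.det_mul, hAi', Matrix.det_one]
  have hm : ∀ (χ : F →+* k), A.val.map χ * (A⁻¹).val.map χ = 1 := by
    intro χ
    rw [← Matrix.map_mul, hAi']
    exact Matrix.map_one _ (map_zero χ) (map_one χ)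
  have hm' : ∀ (χ : F →+* k), (A⁻¹).val.map χ * A.val.map χ = 1 := by
    intro χ
    rw [← Matrix.map_mul, hAi]
    exact Matrix.map_one _ (map_zero χ) (map_one χ)
  have hgen : ∀ (U : Matrix (Fin 2) (Fin 2) F) (a : Γ), U.det = 1 → U.trace = 2 →
      mm ρ a = U.map ι → mm σ a = U.map φ →
      ((A⁻¹).val.map φ * mm σ x) * U.map φ = U.map φ * ((A⁻¹).val.map φ * mm σ x) := by
    intro U a hU hUt ha ha'
    obtain ⟨y, hy, hy'⟩ := hSL (A.val * U * (A⁻¹).val) (by
      rw [Matrix.det_mul, Matrix.det_mul, hU, mul_one, hdet])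
    have e := hP.conj h5 (x := x) (a := a) (b := y) (by
      rw [hx, ha, hy, Matrix.map_mul, Matrix.map_mul]
      rw [smul_mul_assoc, mul_smul_comm, mul_assoc (A.val.map ι * U.map ι), hm' ι, mul_one]) (by
      rw [ha', trace_map, hUt, map_ofNat]) (by
      rw [hy', trace_map, Matrix.trace_mul_comm, ← mul_assoc, hAi, one_mul, hUt, map_ofNat])
    rw [ha', hy', Matrix.map_mul, Matrix.map_mul] at e
    calc ((A⁻¹).val.map φ * mm σ x) * U.map φ = (A⁻¹).val.map φ * (mm σ x * U.map φ) := by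
          rw [mul_assoc]
      _ = ((A⁻¹).val.map φ * A.val.map φ) * U.map φ * ((A⁻¹).val.map φ * mm σ x) := by
          rw [e]; simp only [mul_assoc]
      _ = _ := by rw [hm' φ, one_mul]
  have l1 : l = 1 := by
    rw [← s_one, s_eq, map_one]
  have c1 := hgen (Up 1) g (by simp [Up, Matrix.det_fin_two]) (uni_Up _).trace
    (by rw [hP.g1, up_map, map_one]) (by rw [hP.g2, up_map, map_one])
  have c2 := hgen (Lo 1) h (by simp [Lo, Matrix.det_fin_two]) (uni_Lo _).trace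
    (by rw [hP.h1, lo_map, map_one]) (by rw [hP.h2, lo_map, map_one, l1])
  rw [up_map, map_one] at c1
  rw [lo_map, map_one] at c2
  obtain ⟨a1, a2⟩ := comm_Up c1
  obtain ⟨a3, -⟩ := comm_Lo c2
  set X := (A⁻¹).val.map φ * mm σ x with hX
  refine ⟨X 0 0, ?_⟩
  have e1 : X = X 0 0 • 1 := by
    ext i j
    fin_cases i <;> fin_cases j
    · simp
    · simp [a3]
    · simp [a1]
    · simp [a2]
  calc mm σ x = A.val.map φ * X := by rw [hX, ← mul_assoc, hm φ, one_mul]
    _ = X 0 0 • A.val.map φ := by nth_rewrite 1 [e1]; rw [mul_smul_comm, mul_one]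

end

end Pool.Agent.H502.SM
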