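import Pool.Agent.H502.SM.Cor5

/-!
# The structure of a pair of representations which is not in case A
-/

set_option autoImplicit false

open Matrix

namespace Pool.Agent.H502.SM

variable {Γ : Type*} [Group Γ] {k : Type*} [Field k] {F : Type*} [Field F]

/-- conjugate representation -/
def cj (P : GL (Fin 2) k) (σ : Γ →* GL (Fin 2) k) : Γ →* GL (Fin 2) k :=
  (MulAut.conj P).toMonoidHom.comp σ

lemma mm_cj (P : GL (Fin 2) k) (σ : Γ →* GL (Fin 2) k) (x : Γ) :
    mm (cj P σ) x = P.val * mm σ x * (P⁻¹).val := by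
  simp [cj, mm]

lemma cj_eq_one (P : GL (Fin 2) k) (σ : Γ →* GL (Fin 2) k) (x : Γ) : cj P σ x = 1 ↔ σ x = 1 := by
  simp [cj]

lemma val_mul_inv (P : GL (Fin 2) k) : P.val * (P⁻¹).val = 1 := by
  rw [← Units.val_mul, mul_inv_cancel, Units.val_one]

lemma val_inv_mul (P : GL (Fin 2) k) : (P⁻¹).val * P.val = 1 := by
  rw [← Units.val_mul, inv_mul_cancel, Units.val_one]

variable {p : ℕ} [hp : Fact p.Prime] [CharP k p]

/-- **Structure theorem, general form** -/
theorem struct [Finite Γ] (h5 : 5 ≤ p) {ι : F →+* k} {ρ σ : Γ →* GL (Fin 2) k} (hL : Large ι ρ)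
    (hA : ∀ z, σ z = 1 → Uni (mm ρ z) → ρ z = 1) : ∃ (P : GL (Fin 2) k) (φ : F →+* k),
    (∀ B : Matrix (Fin 2) (Fin 2) F, B.det = 1 →
      ∃ y, mm ρ y = B.map ι ∧ mm σ y = P.val * B.map φ * (P⁻¹).val) ∧
    (∀ (x : Γ) (c : k) (A : GL (Fin 2) F), mm ρ x = c • A.val.map ι →
      ∃ c' : k, mm σ x = c' • (P.val * A.val.map φ * (P⁻¹).val)) := by
  obtain ⟨g, hg, a, hga⟩ := lemU h5 ι ρ hL.sl (uni_Up (1 : F))
  obtain ⟨h, hh, b, hhb⟩ := lemU h5 ι ρ hL.sl (uni_Lo (1 : F))
  rw [up_map, map_one] at hg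
  rw [lo_map, map_one] at hh
  have hu := uni_of_ppow (p := p) σ hga
  have hv := uni_of_ppow (p := p) σ hhb
  set e := mm σ g - 1 with he
  set f := mm σ h - 1 with hf
  have hee : e * e = 0 := hu
  have hff : f * f = 0 := hv
  set l := (e * f).trace with hl
  have hl0 : l ≠ 0 := by
    intro h0
    have h1 : e * f = 0 := nil_comm hee hff h0
    have h2 : f * e = 0 := nil_comm hff hee (by rw [Matrix.trace_mul_comm]; exact h0)
    have h3 : mm σ g * mm σ h = mm σ h * mm σ g := by
      have e1 : mm σ g = 1 + e := by rw [he]; abel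
      have e2 : mm σ h = 1 + f := by rw [hf]; abel
      rw [e1, e2]
      calc (1 + e) * (1 + f) = 1 + e + f + e * f := by noncomm_ring
        _ = 1 + e + f + f * e := by rw [h1, h2]
        _ = (1 + f) * (1 + e) := by noncomm_ring
    have h4 : σ (g * h * g⁻¹ * h⁻¹) = 1 := by
      rw [← mm_eq_one, mm_mul, mm_mul, mm_mul, h3, mul_assoc (mm σ h), mm_mul_inv, mul_one, mm_mul_inv]
    have h5' := lemS h5 ι ρ σ hL.sl hA h4
    have h6 := congrFun (congrFun h5' 1) 0
    rw [comm_calc ρ hg hh] at h6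
    simp at h6
  have hf' : (l⁻¹ • f) * (l⁻¹ • f) = 0 := by rw [smul_mul_smul_comm, hff, smul_zero]
  have ht : (e * (l⁻¹ • f)).trace = 1 := by
    rw [mul_smul_comm, Matrix.trace_smul, ← hl, smul_eq_mul, inv_mul_cancel₀ hl0]
  obtain ⟨P, hP1, hP2⟩ := exists_basis hee hf' ht
  have hPi := val_inv_mul P
  have hPi' := val_mul_inv P
  have hpair : Pair ι ρ (cj P⁻¹ σ) g h l := by
    refine ⟨hL, ?_, hg, hh, ?_, ?_, hl0⟩
    · intro z hz
      exact hA z ((cj_eq_one _ _ _).mp hz)
    · rw [mm_cj, inv_inv]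
      have e1 : mm σ g = 1 + e := by rw [he]; abel
      rw [e1, mul_assoc, add_mul, one_mul, hP1, mul_add, hPi, ← mul_assoc, hPi, one_mul]
      ext i j; fin_cases i <;> fin_cases j <;> simp [Up]
    · rw [mm_cj, inv_inv]
      have e1 : mm σ h = 1 + l • (l⁻¹ • f) := by
        rw [smul_smul, mul_inv_cancel₀ hl0, one_smul, hf]; abel
      rw [e1, mul_assoc, add_mul, one_mul, smul_mul_assoc, hP2, mul_add, hPi, mul_smul_comm,
        ← mul_assoc, hPi, one_mul]
      ext i j; fin_cases i <;> fin_cases j <;> simp [Lo]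
  obtain ⟨φ, h1, h2⟩ := hpair.struct h5
  have hback : ∀ (x : Γ) (M : Matrix (Fin 2) (Fin 2) k), mm (cj P⁻¹ σ) x = M →
      mm σ x = P.val * M * (P⁻¹).val := by
    intro x M hM
    rw [← hM, mm_cj, inv_inv]
    calc mm σ x = (P.val * (P⁻¹).val) * mm σ x * (P.val * (P⁻¹).val) := by rw [hPi']; simp
      _ = _ := by simp only [mul_assoc]
  refine ⟨P, φ, ?_, ?_⟩
  · intro B hB
    obtain ⟨y, hy, hy'⟩ := h1 B hB
    exact ⟨y, hy, hback y _ hy'⟩
  · intro x c A hx
    obtain ⟨c', hc'⟩ := h2 x c A hx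
    refine ⟨c', ?_⟩
    rw [hback x _ hc', mul_smul_comm, smul_mul_assoc]

/-- two homomorphisms from a finite field differ by a power of Frobenius -/
lemma frob_of [Fintype F] [CharP F p] (ι φ : F →+* k) : ∃ j : ℕ, ∀ x, φ x = ι x ^ p ^ j := by
  classical
  set q := Fintype.card F with hq
  have hq1 : 1 < q := Fintype.one_lt_card
  have hroot : ∀ y : k, y ^ q = y → ∃ x, ι x = y := by
    intro y hy
    by_contra hcon
    push Not at hcon
    set f : Polynomial k := Polynomial.X ^ q - Polynomial.X with hf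
    have hf0 : f ≠ 0 := FiniteField.X_pow_card_sub_X_ne_zero k hq1
    have hsub : insert y (Finset.univ.image ι) ⊆ f.roots.toFinset := by
      intro z hz
      rw [Multiset.mem_toFinset, Polynomial.mem_roots hf0, Polynomial.IsRoot.def]
      simp only [hf, Polynomial.eval_sub, Polynomial.eval_pow, Polynomial.eval_X]
      rw [Finset.mem_insert, Finset.mem_image] at hz
      rcases hz with rfl | ⟨x, -, rfl⟩
      · rw [hy, sub_self]
      · rw [← map_pow, hq, FiniteField.pow_card, sub_self]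
    have h1 := Finset.card_le_card hsub
    rw [Finset.card_insert_of_notMem (by
      rw [Finset.mem_image]; rintro ⟨x, -, hx⟩; exact hcon x hx),
      Finset.card_image_of_injective _ ι.injective, Finset.card_univ] at h1
    have h2 := Multiset.toFinset_card_le f.roots
    have h3 : Multiset.card f.roots ≤ q :=
      (Polynomial.card_roots' f).trans_eq (FiniteField.X_pow_card_sub_X_natDegree_eq k hq1)
    omega
  have hφ : ∀ x : F, ∃ y, ι y = φ x := by
    intro x
    apply hroot
    rw [← map_pow, hq, FiniteField.pow_card]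
  choose τ hτ using hφ
  let _ : Algebra (ZMod p) F := ZMod.algebra F p
  let τr : F →+* F :=
    { toFun := τ
      map_one' := ι.injective (by rw [hτ, map_one, map_one])
      map_mul' := fun a b => ι.injective (by rw [hτ, map_mul, map_mul, hτ, hτ])
      map_zero' := ι.injective (by rw [hτ, map_zero, map_zero])
      map_add' := fun a b => ι.injective (by rw [hτ, map_add, map_add, hτ, hτ]) }
  let τa : F →ₐ[ZMod p] F :=
    { τr with
      commutes' := fun a => by
        have : τr.comp (algebraMap (ZMod p) F) = algebraMap (ZMod p) F := Subsingleton.elim _ _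
        exact congrArg (fun t => t a) this }
  obtain ⟨n, hn⟩ := (FiniteField.bijective_frobeniusAlgHom_pow (ZMod p) F).2 τa
  refine ⟨n.1, fun x => ?_⟩
  have h1 : τ x = x ^ p ^ n.1 := by
    have h2 : τa x = x ^ p ^ n.1 := by
      rw [← hn]
      simp only [AlgHom.coe_pow, FiniteField.coe_frobeniusAlgHom, pow_iterate, ZMod.card]
    exact h2
  rw [← hτ, h1, map_pow]

end Pool.Agent.H502.SM
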