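import Pool.Agent.H502.SM.Cor6

/-!
# The counting theorems for a finite group
-/

set_option autoImplicit false

open Matrix

namespace Pool.Agent.H502.SM

variable {Γ : Type*} [Group Γ] {k : Type*} [Field k] {F : Type*} [Field F]

lemma Large.c_ne {ι : F →+* k} {ρ : Γ →* GL (Fin 2) k} {x : Γ} {c : k} {A : Matrix (Fin 2) (Fin 2) F}
    (hx : mm ρ x = c • A.map ι) : c ≠ 0 := by
  rintro rfl
  have := mm_det_ne ρ x
  rw [hx, zero_smul] at this
  simp at this

lemma exists_char {σ τ : Γ →* GL (Fin 2) k} (h : ∀ x, ∃ u : k, mm σ x = u • mm τ x) :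
    ∃ χ : Γ →* kˣ, ∀ x, mm σ x = (χ x : k) • mm τ x := by
  choose u hu using h
  have hτ : ∀ x, mm τ x ≠ 0 := by
    intro x h0
    have := mm_det_ne τ x
    rw [h0] at this
    simp at this
  have hu0 : ∀ x, u x ≠ 0 := by
    intro x h0
    have := mm_det_ne σ x
    rw [hu, h0, zero_smul] at this
    simp at this
  have huniq : ∀ x (a b : k), a • mm τ x = b • mm τ x → a = b := by
    intro x a b hab
    have h1 : (a - b) • mm τ x = 0 := by rw [sub_smul, hab, sub_self]
    exact sub_eq_zero.mp ((smul_eq_zero.mp h1).resolve_right (hτ x))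
  refine ⟨{ toFun := fun x => Units.mk0 (u x) (hu0 x), map_one' := ?_, map_mul' := ?_ }, ?_⟩
  · apply Units.ext
    apply huniq 1
    rw [Units.val_mk0, ← hu, mm_one, mm_one, Units.val_one, one_smul]
  · intro x y
    apply Units.ext
    apply huniq (x * y)
    rw [Units.val_mk0, ← hu, mm_mul, mm_mul, Units.val_mul, Units.val_mk0, Units.val_mk0, hu x, hu y,
      smul_mul_smul_comm]
  · intro x
    exact hu x

variable [Fintype Γ] [Fintype F] {p : ℕ} [hp : Fact p.Prime] [CharP k p]

/-- in case A the traces rarely agree -/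
lemma countA (h5 : 5 ≤ p) {ι : F →+* k} {ρ σ : Γ →* GL (Fin 2) k} (hL : Large ι ρ)
    (S : Finset Γ) (hS : ∀ x ∈ S, (mm ρ x).trace = (mm σ x).trace)
    {z : Γ} (hz : σ z = 1) (hu : Uni (mm ρ z)) (hne : ρ z ≠ 1) :
    S.card * (Fintype.card F - 1) ≤ Fintype.card Γ := by
  classical
  have hs : ∀ B : SpecialLinearGroup (Fin 2) F, ∃ y, σ y = 1 ∧ mm ρ y = B.val.map ι :=
    fun B => caseA h5 hL hz hu hne B.val B.2
  choose s hs1 hs2 using hs
  have key : ∀ x ∈ (Finset.univ : Finset Γ),
      (Finset.univ.filter fun B => x * s B ∈ S).card ≤ Fintype.card F ^ 2 + Fintype.card F := by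
    intro x _
    obtain ⟨c, A, hx⟩ := hL.form x
    have hc := Large.c_ne hx
    have ht : ∀ B, x * s B ∈ S → c * ι (A.val * B.val).trace = (mm σ x).trace := by
      intro B hB
      have h1 := hS _ hB
      rw [mm_mul, mm_mul, (mm_eq_one σ).mpr (hs1 B), mul_one, hs2, hx, smul_mul_assoc,
        ← Matrix.map_mul, Matrix.trace_smul, trace_map, smul_eq_mul] at h1
      exact h1
    by_cases hex : ∃ B0, x * s B0 ∈ S
    · obtain ⟨B0, hB0⟩ := hex
      refine (Finset.card_le_card ?_).trans (card_tr_le A (A.val * B0.val).trace)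
      intro B hB
      refine Finset.mem_filter.mpr ⟨Finset.mem_univ _, ?_⟩
      have h1 := ht B (Finset.mem_filter.mp hB).2
      rw [← ht B0 hB0] at h1
      exact ι.injective (mul_left_cancel₀ hc h1)
    · have : (Finset.univ.filter fun B => x * s B ∈ S) = ∅ := by
        rw [Finset.filter_eq_empty_iff]
        intro B _ hB
        exact hex ⟨B, hB⟩
      rw [this]
      simp
  have h := avg s S Finset.univ _ (fun _ _ _ => Finset.mem_univ _) key
  rw [card_SL, Finset.card_univ] at h
  have hq : 0 < Fintype.card F := Fintype.card_pos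
  have h2 : (S.card * (Fintype.card F - 1)) * (Fintype.card F * (Fintype.card F + 1)) ≤
      Fintype.card Γ * (Fintype.card F * (Fintype.card F + 1)) := by
    calc _ = S.card * (Fintype.card F * (Fintype.card F - 1) * (Fintype.card F + 1)) := by ring
      _ ≤ Fintype.card Γ * (Fintype.card F ^ 2 + Fintype.card F) := h
      _ = _ := by ring
  exact Nat.le_of_mul_le_mul_right h2 (by positivity)

/-- **Finite form of the first theorem** -/
theorem finite_one [CharP F p] (h5 : 5 ≤ p) {ι : F →+* k} {ρ σ : Γ →* GL (Fin 2) k} (hL : Large ι ρ)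
    (S : Finset Γ) (hS : ∀ x ∈ S, (mm ρ x).trace = (mm σ x).trace)
    (hcard : Fintype.card Γ < S.card * (Fintype.card F - 1)) :
    ∃ (P : GL (Fin 2) k) (j : ℕ) (χ : Γ →* kˣ), ∀ x,
      mm σ x = (χ x : k) • (P.val * (mm ρ x).map (fun a => a ^ p ^ j) * (P⁻¹).val) := by
  have hA : ∀ z, σ z = 1 → Uni (mm ρ z) → ρ z = 1 := by
    intro z hz hu
    by_contra hne
    exact absurd (countA h5 hL S hS hz hu hne) (by omega)
  obtain ⟨P, φ, -, h2⟩ := struct h5 hL hA
  obtain ⟨j, hj⟩ := frob_of (p := p) ι φ
  let fr : k →+* k := iterateFrobenius k p j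
  let τ : Γ →* GL (Fin 2) k := cj P ((Matrix.GeneralLinearGroup.map fr).comp ρ)
  have hfr : ∀ a : k, fr a = a ^ p ^ j := fun a => iterateFrobenius_def p j a
  have hτ : ∀ x, mm τ x = P.val * (mm ρ x).map (fun a => a ^ p ^ j) * (P⁻¹).val := by
    intro x
    rw [mm_cj]
    congr 2
  obtain ⟨χ, hχ⟩ := exists_char (σ := σ) (τ := τ) (by
    intro x
    obtain ⟨c, A, hx⟩ := hL.form x
    have hc := Large.c_ne hx
    obtain ⟨c', hc'⟩ := h2 x c A hx
    refine ⟨c' * (c ^ p ^ j)⁻¹, ?_⟩
    have h3 : (mm ρ x).map (fun a => a ^ p ^ j) = c ^ p ^ j • A.val.map φ := by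
      rw [hx]
      ext i l
      simp only [Matrix.map_apply, Matrix.smul_apply, smul_eq_mul, mul_pow, hj]
    rw [hτ, h3, hc', mul_smul_comm, smul_mul_assoc, smul_smul, mul_assoc c',
      inv_mul_cancel₀ (pow_ne_zero _ hc), mul_one])
  exact ⟨P, j, χ, fun x => by rw [hχ, hτ]⟩

/-- the pairs of scalars for which the traces agree -/
lemma card_T {ι φ : F →+* k} {c c' : k} (hc : c ≠ 0) (h : ¬ (c = c' ∧ φ = ι)) [DecidableEq F]
    [DecidableEq k] :
    2 * (Finset.univ.filter fun t : F => c * ι t = c' * φ t).card ≤ Fintype.card F := by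
  let T : AddSubgroup F :=
    { carrier := {t | c * ι t = c' * φ t}
      zero_mem' := by simp
      add_mem' := by
        intro a b ha hb
        simp only [Set.mem_ofPred_eq] at ha hb ⊢
        rw [map_add, map_add, mul_add, mul_add, ha, hb]
      neg_mem' := by
        intro a ha
        simp only [Set.mem_ofPred_eq] at ha ⊢
        rw [map_neg, map_neg, mul_neg, mul_neg, ha] }
  have hT : T ≠ ⊤ := by
    intro hT
    apply h
    have hall : ∀ t : F, c * ι t = c' * φ t := by
      intro t
      have : t ∈ T := by rw [hT]; exact AddSubgroup.mem_top t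
      exact this
    have h1 := hall 1
    rw [map_one, map_one, mul_one, mul_one] at h1
    refine ⟨h1, ?_⟩
    ext t
    have h2 := hall t
    rw [← h1] at h2
    exact (mul_left_cancel₀ hc h2).symm
  have hcard : Nat.card T = (Finset.univ.filter fun t : F => c * ι t = c' * φ t).card := by
    refine Nat.subtype_card _ ?_
    intro t
    rw [Finset.mem_filter]
    exact ⟨fun h => h.2, fun h => ⟨Finset.mem_univ _, h⟩⟩
  rw [← hcard, ← Nat.card_eq_fintype_card, ← T.card_mul_index, mul_comm 2]
  exact Nat.mul_le_mul_left _ (AddSubgroup.one_lt_index_of_ne_top hT)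

/-- **Finite form of the second theorem** -/
theorem finite_two (h5 : 5 ≤ p) {ι : F →+* k} {ρ σ : Γ →* GL (Fin 2) k}
    (hL : Large ι ρ) (S : Finset Γ) (hS : ∀ x ∈ S, (mm ρ x).trace = (mm σ x).trace)
    (hcard : Fintype.card Γ * Fintype.card F < S.card * (2 * (Fintype.card F - 1))) :
    ∃ P : GL (Fin 2) k, ∀ x, mm σ x = P.val * mm ρ x * (P⁻¹).val := by
  classical
  have hq : 2 ≤ Fintype.card F := Fintype.one_lt_card
  have hA : ∀ z, σ z = 1 → Uni (mm ρ z) → ρ z = 1 := by
    intro z hz hu
    by_contra hne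
    have h1 := countA h5 hL S hS hz hu hne
    have h2 : S.card * (2 * (Fintype.card F - 1)) = 2 * (S.card * (Fintype.card F - 1)) := by ring
    rw [h2] at hcard
    have h3 : Fintype.card Γ * 2 ≤ Fintype.card Γ * Fintype.card F := Nat.mul_le_mul_left _ hq
    omega
  obtain ⟨P, φ, h1, h2⟩ := struct h5 hL hA
  have hs : ∀ B : SpecialLinearGroup (Fin 2) F, ∃ y, mm ρ y = B.val.map ι ∧
      mm σ y = P.val * B.val.map φ * (P⁻¹).val := fun B => h1 B.val B.2
  choose s hs1 hs2 using hs
  have hρ : ∀ x (c : k) (A : GL (Fin 2) F) B, mm ρ x = c • A.val.map ι →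
      (mm ρ (x * s B)).trace = c * ι (A.val * B.val).trace := by
    intro x c A B hx
    rw [mm_mul, hs1, hx, smul_mul_assoc, ← Matrix.map_mul, Matrix.trace_smul, trace_map, smul_eq_mul]
  have hσ : ∀ x (c : k) (A : GL (Fin 2) F) B, mm σ x = c • (P.val * A.val.map φ * (P⁻¹).val) →
      (mm σ (x * s B)).trace = c * φ (A.val * B.val).trace := by
    intro x c A B hx
    have e : mm σ (x * s B) = c • (P.val * (A.val * B.val).map φ * (P⁻¹).val) := by
      rw [mm_mul, hs2, hx, smul_mul_assoc, Matrix.map_mul]
      congr 1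
      calc P.val * A.val.map φ * (P⁻¹).val * (P.val * B.val.map φ * (P⁻¹).val)
          = P.val * A.val.map φ * ((P⁻¹).val * P.val) * B.val.map φ * (P⁻¹).val := by
            simp only [mul_assoc]
        _ = P.val * (A.val.map φ * B.val.map φ) * (P⁻¹).val := by
            rw [val_inv_mul, mul_one]; simp only [mul_assoc]
    rw [e, Matrix.trace_smul, Matrix.trace_mul_comm, ← mul_assoc, val_inv_mul, one_mul, trace_map,
      smul_eq_mul]
  have hSL := card_SL (F := F)
  -- the number of agreements in a coset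
  have hfib : ∀ x (c c' : k) (A : GL (Fin 2) F), mm ρ x = c • A.val.map ι →
      mm σ x = c' • (P.val * A.val.map φ * (P⁻¹).val) →
      (Finset.univ.filter fun B => x * s B ∈ S).card ≤
        (Finset.univ.filter fun t : F => c * ι t = c' * φ t).card *
          (Fintype.card F ^ 2 + Fintype.card F) := by
    intro x c c' A hx hx'
    have h1 : (Finset.univ.filter fun B => x * s B ∈ S) ⊆
        (Finset.univ.filter fun t : F => c * ι t = c' * φ t).biUnion fun t =>
          Finset.univ.filter fun B : SpecialLinearGroup (Fin 2) F => (A.val * B.val).trace = t := by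
      intro B hB
      rw [Finset.mem_biUnion]
      refine ⟨(A.val * B.val).trace, Finset.mem_filter.mpr ⟨Finset.mem_univ _, ?_⟩,
        Finset.mem_filter.mpr ⟨Finset.mem_univ _, rfl⟩⟩
      rw [← hρ x c A B hx, ← hσ x c' A B hx']
      exact hS _ (Finset.mem_filter.mp hB).2
    refine (Finset.card_le_card h1).trans (Finset.card_biUnion_le.trans ?_)
    refine (Finset.sum_le_sum fun t _ => card_tr_le A t).trans ?_
    rw [Finset.sum_const, smul_eq_mul]
  by_cases hall : ∃ x, ∃ (c : k) (A : GL (Fin 2) F), mm ρ x = c • A.val.map ι ∧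
      mm σ x = c • (P.val * A.val.map φ * (P⁻¹).val) ∧ φ = ι
  · obtain ⟨-, -, -, -, -, hφ⟩ := hall
    subst hφ
    -- the places where they are equal
    set H : Subgroup Γ := MonoidHom.eqLocus σ (cj P ρ) with hH
    have hmem : ∀ x, x ∈ H ↔ mm σ x = P.val * mm ρ x * (P⁻¹).val := by
      intro x
      rw [← mm_cj]
      exact ⟨fun h => congrArg Units.val h, fun h => Units.ext h⟩
    by_cases htop : H = ⊤
    · exact ⟨P, fun x => (hmem x).mp (by rw [htop]; exact Subgroup.mem_top x)⟩
    exfalso
    have hHcard : 2 * Nat.card H ≤ Fintype.card Γ := by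
      rw [← Nat.card_eq_fintype_card, ← H.card_mul_index, mul_comm 2]
      exact Nat.mul_le_mul_left _ (Subgroup.one_lt_index_of_ne_top htop)
    set W : Finset Γ := Finset.univ.filter fun x => x ∉ H with hW
    set H' : Finset Γ := Finset.univ.filter fun x => x ∈ H with hH'
    have hH'c : H'.card = Nat.card H := by
      symm
      refine Nat.subtype_card _ ?_
      intro t
      rw [Finset.mem_filter]
      exact ⟨fun h => h.2, fun h => ⟨Finset.mem_univ _, h⟩⟩
    have hWc : W.card + H'.card = Fintype.card Γ := by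
      rw [hW, hH', add_comm, ← Finset.card_univ]
      exact Finset.card_filter_add_card_filter_not (s := Finset.univ) (p := fun x => x ∈ H)
    have hsH : ∀ B, s B ∈ H := fun B => (hmem _).mpr (by rw [hs2, hs1])
    have h3 := avg s (S ∩ W) W (Fintype.card F ^ 2 + Fintype.card F) (by
      intro x B hB
      have h4 : x * s B ∉ H := (Finset.mem_filter.mp (Finset.mem_inter.mp hB).2).2
      refine Finset.mem_filter.mpr ⟨Finset.mem_univ _, fun h5 => h4 (H.mul_mem h5 (hsH B))⟩) (by
      intro x hx
      have hxH : x ∉ H := (Finset.mem_filter.mp hx).2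
      obtain ⟨c, A, hxc⟩ := hL.form x
      have hc := Large.c_ne hxc
      obtain ⟨c', hxc'⟩ := h2 x c A hxc
      have hcc : c ≠ c' := by
        rintro rfl
        apply hxH
        rw [hmem, hxc, hxc', mul_smul_comm, smul_mul_assoc]
      have hT : (Finset.univ.filter fun t : F => c * φ t = c' * φ t).card ≤ 1 := by
        rw [Finset.card_le_one]
        intro a ha b hb
        have ha' := (Finset.mem_filter.mp ha).2
        have hb' := (Finset.mem_filter.mp hb).2
        have e : ∀ t : F, c * φ t = c' * φ t → t = 0 := by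
          intro t ht
          have : (c - c') * φ t = 0 := by rw [sub_mul, ht, sub_self]
          have := (mul_eq_zero.mp this).resolve_left (sub_ne_zero.mpr hcc)
          exact (map_eq_zero φ).mp this
        rw [e a ha', e b hb']
      have h4 := hfib x c c' A hxc hxc'
      have h5 : (Finset.univ.filter fun B => x * s B ∈ S ∩ W).card ≤
          (Finset.univ.filter fun B => x * s B ∈ S).card := by
        apply Finset.card_le_card
        intro B hB
        exact Finset.mem_filter.mpr ⟨Finset.mem_univ _,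
          (Finset.mem_inter.mp (Finset.mem_filter.mp hB).2).1⟩
      calc _ ≤ _ := h5
        _ ≤ _ := h4
        _ ≤ 1 * (Fintype.card F ^ 2 + Fintype.card F) := Nat.mul_le_mul_right _ hT
        _ = _ := one_mul _)
    rw [hSL] at h3
    have h4 : (S ∩ W).card * (Fintype.card F - 1) ≤ W.card := by
      have h5 : ((S ∩ W).card * (Fintype.card F - 1)) * (Fintype.card F * (Fintype.card F + 1)) ≤
          W.card * (Fintype.card F * (Fintype.card F + 1)) := by
        calc _ = (S ∩ W).card * (Fintype.card F * (Fintype.card F - 1) * (Fintype.card F + 1)) := by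
              ring
          _ ≤ W.card * (Fintype.card F ^ 2 + Fintype.card F) := h3
          _ = _ := by ring
      exact Nat.le_of_mul_le_mul_right h5 (by positivity)
    have h6 : S.card ≤ (S ∩ W).card + H'.card := by
      have : S ⊆ (S ∩ W) ∪ H' := by
        intro x hx
        by_cases hxH : x ∈ H
        · exact Finset.mem_union_right _ (Finset.mem_filter.mpr ⟨Finset.mem_univ _, hxH⟩)
        · exact Finset.mem_union_left _ (Finset.mem_inter.mpr ⟨hx,
            Finset.mem_filter.mpr ⟨Finset.mem_univ _, hxH⟩⟩)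
      exact (Finset.card_le_card this).trans (Finset.card_union_le _ _)
    obtain ⟨q, hqq⟩ : ∃ q, Fintype.card F = q + 2 := ⟨_, (Nat.sub_add_cancel hq).symm⟩
    have hq1 : Fintype.card F - 1 = q + 1 := by omega
    rw [hq1] at h4 hcard
    rw [hqq] at hcard
    rw [hH'c] at h6 hWc
    have h7 : S.card * (2 * (q + 1)) ≤ Fintype.card Γ * (q + 2) := by
      calc S.card * (2 * (q + 1)) ≤ ((S ∩ W).card + Nat.card H) * (2 * (q + 1)) :=
            Nat.mul_le_mul_right _ h6
        _ = 2 * ((S ∩ W).card * (q + 1)) + 2 * Nat.card H * (q + 1) := by ring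
        _ ≤ 2 * W.card + 2 * Nat.card H * (q + 1) := by omega
        _ = 2 * (W.card + Nat.card H) + (2 * Nat.card H) * q := by ring
        _ ≤ 2 * Fintype.card Γ + Fintype.card Γ * q := by
            rw [hWc]
            exact Nat.add_le_add_left (Nat.mul_le_mul_right _ hHcard) _
        _ = Fintype.card Γ * (q + 2) := by ring
    omega
  · exfalso
    have h3 : ∀ x ∈ (Finset.univ : Finset Γ),
        (Finset.univ.filter fun B => x * s B ∈ S).card ≤
          (Fintype.card F * (Fintype.card F ^ 2 + Fintype.card F)) / 2 := by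
      intro x _
      obtain ⟨c, A, hxc⟩ := hL.form x
      have hc := Large.c_ne hxc
      obtain ⟨c', hxc'⟩ := h2 x c A hxc
      have hT := card_T (ι := ι) (φ := φ) (c := c) (c' := c') hc (by
        rintro ⟨rfl, hφ⟩
        exact hall ⟨x, c, A, hxc, hxc', hφ⟩)
      have h4 := hfib x c c' A hxc hxc'
      rw [Nat.le_div_iff_mul_le two_pos]
      calc _ ≤ (Finset.univ.filter fun t : F => c * ι t = c' * φ t).card *
          (Fintype.card F ^ 2 + Fintype.card F) * 2 := Nat.mul_le_mul_right _ h4
        _ = (2 * (Finset.univ.filter fun t : F => c * ι t = c' * φ t).card) *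
          (Fintype.card F ^ 2 + Fintype.card F) := by ring
        _ ≤ _ := Nat.mul_le_mul_right _ hT
    have h4 := avg s S Finset.univ _ (fun _ _ _ => Finset.mem_univ _) h3
    rw [hSL, Finset.card_univ] at h4
    set M := Fintype.card F * (Fintype.card F ^ 2 + Fintype.card F) with hM
    have h5 : 2 * (M / 2) ≤ M := Nat.mul_div_le M 2
    have h6 : (S.card * (2 * (Fintype.card F - 1))) * (Fintype.card F * (Fintype.card F + 1)) ≤
        (Fintype.card Γ * Fintype.card F) * (Fintype.card F * (Fintype.card F + 1)) := by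
      calc _ = 2 * (S.card * (Fintype.card F * (Fintype.card F - 1) * (Fintype.card F + 1))) := by ring
        _ ≤ 2 * (Fintype.card Γ * (M / 2)) := Nat.mul_le_mul_left _ h4
        _ = Fintype.card Γ * (2 * (M / 2)) := by ring
        _ ≤ Fintype.card Γ * M := Nat.mul_le_mul_left _ h5
        _ = _ := by rw [hM]; ring
    have h7 := Nat.le_of_mul_le_mul_right h6 (by positivity)
    omega

end Pool.Agent.H502.SM
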