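import Mathlib

/-!
# Two by two matrices: unipotent elements
-/

set_option autoImplicit false

open Matrix

namespace Pool.Agent.H502.SM

variable {k : Type*} [Field k]

/-- the upper triangular unipotent matrix -/
def Up (b : k) : Matrix (Fin 2) (Fin 2) k := !![1, b; 0, 1]

/-- the lower triangular unipotent matrix -/
def Lo (c : k) : Matrix (Fin 2) (Fin 2) k := !![1, 0; c, 1]

lemma mul_self_eq (N : Matrix (Fin 2) (Fin 2) k) : N * N = N.trace • N - N.det • 1 := by
  ext i j
  fin_cases i <;> fin_cases j <;>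
    simp [Matrix.mul_apply, Fin.sum_univ_two, Matrix.trace_fin_two, Matrix.det_fin_two] <;> ring

lemma nil_two {N : Matrix (Fin 2) (Fin 2) k} (h : IsNilpotent N) : N * N = 0 := by
  have h1 : N.trace = 0 := (Matrix.isNilpotent_trace_of_isNilpotent h).eq_zero
  have h2 : N.det = 0 := by
    have : IsNilpotent (Matrix.detMonoidHom N) := by
      obtain ⟨n, hn⟩ := h
      refine ⟨n + 1, ?_⟩
      rw [← map_pow, pow_succ, hn, zero_mul]
      simp [Matrix.detMonoidHom]
    exact this.eq_zero
  rw [mul_self_eq, h1, h2]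
  simp

lemma entries {N : Matrix (Fin 2) (Fin 2) k} (h : N * N = 0) :
    N 1 1 = - N 0 0 ∧ N 0 0 * N 0 0 + N 0 1 * N 1 0 = 0 := by
  have hn : IsNilpotent N := ⟨2, by rw [pow_two, h]⟩
  have h1 : N.trace = 0 := (Matrix.isNilpotent_trace_of_isNilpotent hn).eq_zero
  rw [Matrix.trace_fin_two] at h1
  have h2 := congrFun (congrFun h 0) 0
  simp only [Matrix.mul_apply, Fin.sum_univ_two, Matrix.zero_apply] at h2
  exact ⟨eq_neg_of_add_eq_zero_right h1, h2⟩

lemma det_uni {N : Matrix (Fin 2) (Fin 2) k} (h : N * N = 0) : (1 + N).det = 1 := by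
  obtain ⟨h1, h2⟩ := entries h
  rw [Matrix.det_fin_two]
  simp [h1]
  linear_combination -h2

lemma trace_uni {N : Matrix (Fin 2) (Fin 2) k} (h : N * N = 0) : (1 + N).trace = 2 := by
  obtain ⟨h1, h2⟩ := entries h
  rw [Matrix.trace_fin_two]
  simp [h1]
  ring

/-- matrices commuting with a nilpotent one have a double eigenvalue -/
lemma comm_nil {X N : Matrix (Fin 2) (Fin 2) k} (hXN : X * N = N * X) (hN : N * N = 0) (hN0 : N ≠ 0) :
    X.trace ^ 2 = 4 * X.det := by
  obtain ⟨h1, h2⟩ := entries hN
  have e00 := congrFun (congrFun hXN 0) 0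
  have e01 := congrFun (congrFun hXN 0) 1
  have e10 := congrFun (congrFun hXN 1) 0
  simp only [Matrix.mul_apply, Fin.sum_univ_two] at e00 e01 e10
  rw [Matrix.trace_fin_two, Matrix.det_fin_two]
  rw [h1] at e01 e10
  set a := N 0 0
  set b := N 0 1
  set c := N 1 0
  set x := X 0 0
  set y := X 0 1
  set z := X 1 0
  set w := X 1 1
  by_cases hb : b = 0
  · by_cases hc : c = 0
    · exfalso
      apply hN0
      have ha : a = 0 := by
        rw [hb, zero_mul, add_zero] at h2
        exact mul_self_eq_zero.mp h2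
      ext i j
      fin_cases i <;> fin_cases j
      · exact ha
      · exact hb
      · exact hc
      · change N 1 1 = 0
        rw [h1]; change -a = 0
        rw [ha, neg_zero]
    · have : c ^ 2 * ((x + w) ^ 2 - 4 * (x * w - y * z)) = 0 := by
        have e1 : c * (x - w) = 2 * a * z := by linear_combination -e10
        have e2 : y * c = b * z := by linear_combination e00
        calc c ^ 2 * ((x + w) ^ 2 - 4 * (x * w - y * z)) = (c * (x - w)) ^ 2 + 4 * c * z * (y * c) := by ring
          _ = 4 * z ^ 2 * (a * a + b * c) := by rw [e1, e2]; ring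
          _ = 0 := by rw [h2, mul_zero]
      have h3 := (mul_eq_zero.mp this).resolve_left (pow_ne_zero 2 hc)
      linear_combination h3
  · have : b ^ 2 * ((x + w) ^ 2 - 4 * (x * w - y * z)) = 0 := by
      have e1 : b * (x - w) = 2 * a * y := by linear_combination e01
      have e2 : b * z = y * c := by linear_combination -e00
      calc b ^ 2 * ((x + w) ^ 2 - 4 * (x * w - y * z)) = (b * (x - w)) ^ 2 + 4 * b * y * (b * z) := by ring
        _ = 4 * y ^ 2 * (a * a + b * c) := by rw [e1, e2]; ring
        _ = 0 := by rw [h2, mul_zero]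
    have h3 := (mul_eq_zero.mp this).resolve_left (pow_ne_zero 2 hb)
    linear_combination h3

lemma nil_comm {N N' : Matrix (Fin 2) (Fin 2) k} (h : N * N = 0) (h' : N' * N' = 0)
    (ht : (N * N').trace = 0) : N * N' = 0 := by
  obtain ⟨h1, h2⟩ := entries h
  obtain ⟨h1', h2'⟩ := entries h'
  rw [Matrix.trace_fin_two] at ht
  simp only [Matrix.mul_apply, Fin.sum_univ_two] at ht
  rw [h1, h1'] at ht
  set a := N 0 0
  set b := N 0 1
  set c := N 1 0
  set a' := N' 0 0
  set b' := N' 0 1
  set c' := N' 1 0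
  have hs : 2 * (a * a') + b * c' + c * b' = 0 := by linear_combination ht
  have q1 : (b * c' - c * b') ^ 2 = 0 := by
    have e : (b * c' - c * b') ^ 2 = (b * c' + c * b') ^ 2 - 4 * (b * c) * (b' * c') := by ring
    have e2 : b * c' + c * b' = - (2 * (a * a')) := by linear_combination hs
    rw [e, e2]
    linear_combination 4 * a' * a' * h2 - 4 * b * c * h2'
  have q2 : b * c' = c * b' := sub_eq_zero.mp (pow_eq_zero_iff two_ne_zero |>.mp q1)
  have r1 : (a * a' + b * c') ^ 2 = 0 := by
    have : (a * a' + b * c') * 2 = 0 := by linear_combination hs + q2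
    have e : (a * a' + b * c') ^ 2 = a * a' * (a * a' + 2 * (b * c')) + (b * c') * (b * c') := by ring
    have e3 : (b * c') * (b * c') = (b * c) * (b' * c') := by
      nth_rewrite 2 [q2]; ring
    rw [e, e3]
    have h5 : (b * c) * (b' * c') = (a * a') * (a * a') := by
      have u1 : b * c = - (a * a) := by linear_combination h2
      have u2 : b' * c' = - (a' * a') := by linear_combination h2'
      rw [u1, u2]; ring
    rw [h5]
    linear_combination (a * a') * this
  have r1' : a * a' + b * c' = 0 := pow_eq_zero_iff two_ne_zero |>.mp r1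
  have r2 : (a * b' - b * a') ^ 2 = 0 := by
    have e : (a * b' - b * a') ^ 2 = (a * a) * (b' * b') - 2 * (a * a') * (b * b') + (b * b) * (a' * a') := by
      ring
    have u1 : a * a = - (b * c) := by linear_combination h2
    have u2 : a' * a' = - (b' * c') := by linear_combination h2'
    rw [e, u1, u2]
    linear_combination -(b * b') * hs
  have r3 : (c * a' - a * c') ^ 2 = 0 := by
    have e : (c * a' - a * c') ^ 2 = (c * c) * (a' * a') - 2 * (a * a') * (c * c') + (a * a) * (c' * c') := by
      ring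
    have u1 : a * a = - (b * c) := by linear_combination h2
    have u2 : a' * a' = - (b' * c') := by linear_combination h2'
    rw [e, u1, u2]
    linear_combination -(c * c') * hs
  have r2' := pow_eq_zero_iff two_ne_zero |>.mp r2
  have r3' := pow_eq_zero_iff two_ne_zero |>.mp r3
  ext i j
  fin_cases i <;> fin_cases j <;> simp only [Matrix.mul_apply, Fin.sum_univ_two, Matrix.zero_apply]
  · change a * a' + b * c' = 0
    exact r1'
  · change a * b' + b * N' 1 1 = 0
    rw [h1']
    linear_combination r2'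
  · change c * a' + N 1 1 * c' = 0
    rw [h1]
    linear_combination r3'
  · change c * b' + N 1 1 * N' 1 1 = 0
    rw [h1, h1']
    linear_combination r1' - q2

lemma add_eq_trace {N N' : Matrix (Fin 2) (Fin 2) k} (h : N * N = 0) (h' : N' * N' = 0) :
    N * N' + N' * N = (N * N').trace • (1 : Matrix (Fin 2) (Fin 2) k) := by
  obtain ⟨h1, h2⟩ := entries h
  obtain ⟨h1', h2'⟩ := entries h'
  ext i j
  fin_cases i <;> fin_cases j <;>
    simp [Matrix.mul_apply, Fin.sum_univ_two, Matrix.trace_fin_two, h1, h1'] <;> ring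

/-- two nilpotent matrices with different kernels in a suitable basis -/
lemma exists_basis {e f : Matrix (Fin 2) (Fin 2) k} (he : e * e = 0) (hf : f * f = 0)
    (ht : (e * f).trace = 1) :
    ∃ P : GL (Fin 2) k, e * P.val = P.val * !![0, 1; 0, 0] ∧ f * P.val = P.val * !![0, 0; 1, 0] := by
  have hef : e * f + f * e = 1 := by rw [add_eq_trace he hf, ht, one_smul]
  have he0 : e ≠ 0 := by
    rintro rfl
    simp at ht
  obtain ⟨w, hw⟩ : ∃ w : Fin 2 → k, e *ᵥ w ≠ 0 := by
    by_contra hcon
    push Not at hcon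
    apply he0
    ext i j
    have := congrFun (hcon (Pi.single j 1)) i
    simpa using this
  set v1 := e *ᵥ w with hv1
  set v2 := f *ᵥ v1 with hv2
  have a1 : e *ᵥ v1 = 0 := by rw [hv1, Matrix.mulVec_mulVec, he, Matrix.zero_mulVec]
  have a2 : f *ᵥ v2 = 0 := by rw [hv2, Matrix.mulVec_mulVec, hf, Matrix.zero_mulVec]
  have a3 : e *ᵥ v2 = v1 := by
    have h1 : (e * f + f * e) *ᵥ v1 = v1 := by rw [hef, Matrix.one_mulVec]
    rw [Matrix.add_mulVec, ← Matrix.mulVec_mulVec, ← Matrix.mulVec_mulVec, a1, Matrix.mulVec_zero,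
      add_zero] at h1
    exact h1
  let Q : Matrix (Fin 2) (Fin 2) k := !![v1 0, v2 0; v1 1, v2 1]
  have hQ : Q.det ≠ 0 := by
    intro h0
    obtain ⟨u, hu0, hu⟩ := Matrix.exists_mulVec_eq_zero_iff.mpr h0
    have hlin : u 0 • v1 + u 1 • v2 = 0 := by
      ext i
      have := congrFun hu i
      simp only [Q, Matrix.mulVec, dotProduct, Fin.sum_univ_two, Pi.zero_apply] at this
      simp only [Pi.add_apply, Pi.smul_apply, smul_eq_mul, Pi.zero_apply]
      fin_cases i
      · simp at this ⊢; linear_combination this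
      · simp at this ⊢; linear_combination this
    have h1 := congrArg (fun t => e *ᵥ t) hlin
    simp only [Matrix.mulVec_add, Matrix.mulVec_smul, a1, a3, smul_zero, zero_add,
      Matrix.mulVec_zero] at h1
    have hu1 : u 1 = 0 := (smul_eq_zero.mp h1).resolve_right hw
    rw [hu1, zero_smul, add_zero] at hlin
    have hu2 : u 0 = 0 := (smul_eq_zero.mp hlin).resolve_right hw
    apply hu0
    ext i
    fin_cases i
    · exact hu2
    · exact hu1
  refine ⟨Matrix.GeneralLinearGroup.mkOfDetNeZero Q hQ, ?_, ?_⟩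
  · change e * Q = Q * !![0, 1; 0, 0]
    have b1 : ∀ i, (e *ᵥ v1) i = 0 := fun i => congrFun a1 i
    have b2 : ∀ i, (e *ᵥ v2) i = v1 i := fun i => congrFun a3 i
    simp only [Matrix.mulVec, dotProduct, Fin.sum_univ_two] at b1 b2
    ext i j
    fin_cases j
    · simp [Q, Matrix.mul_apply, Fin.sum_univ_two, b1]
    · fin_cases i
      · simp [Q, Matrix.mul_apply, Fin.sum_univ_two]
        exact b2 0
      · simp [Q, Matrix.mul_apply, Fin.sum_univ_two]
        exact b2 1
  · change f * Q = Q * !![0, 0; 1, 0]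
    have b1 : ∀ i, (f *ᵥ v2) i = 0 := fun i => congrFun a2 i
    have b2 : ∀ i, (f *ᵥ v1) i = v2 i := fun i => congrFun hv2.symm i
    simp only [Matrix.mulVec, dotProduct, Fin.sum_univ_two] at b1 b2
    ext i j
    fin_cases j
    · fin_cases i
      · simp [Q, Matrix.mul_apply, Fin.sum_univ_two]
        exact b2 0
      · simp [Q, Matrix.mul_apply, Fin.sum_univ_two]
        exact b2 1
    · simp [Q, Matrix.mul_apply, Fin.sum_univ_two, b1]

lemma scalar_of {X : Matrix (Fin 2) (Fin 2) k} (h1 : (X * !![0, 1; 0, 0]).trace = 0)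
    (h2 : (X * !![0, 0; 1, 0]).trace = 0) (h3 : (X * !![-1, 1; -1, 1]).trace = 0) :
    X = X 0 0 • 1 := by
  simp [Matrix.trace_fin_two, Matrix.mul_apply, Fin.sum_univ_two] at h1 h2 h3
  ext i j
  fin_cases i <;> fin_cases j
  · simp
  · simp [h2]
  · simp [h1]
  · simp
    rw [h1, h2] at h3
    linear_combination h3

lemma comm_Up {X : Matrix (Fin 2) (Fin 2) k} (h : X * Up 1 = Up 1 * X) :
    X 1 0 = 0 ∧ X 0 0 = X 1 1 := by
  have e0 := congrFun (congrFun h 0) 0
  have e1 := congrFun (congrFun h 0) 1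
  simp [Up, Matrix.mul_apply, Fin.sum_univ_two] at e0 e1
  exact ⟨e0, by linear_combination e1⟩

lemma comm_Lo {X : Matrix (Fin 2) (Fin 2) k} (h : X * Lo 1 = Lo 1 * X) :
    X 0 1 = 0 ∧ X 0 0 = X 1 1 := by
  have e0 := congrFun (congrFun h 0) 0
  have e1 := congrFun (congrFun h 1) 0
  simp [Lo, Matrix.mul_apply, Fin.sum_univ_two] at e0 e1
  exact ⟨e0, by linear_combination -e1⟩

lemma uni_pow {N : Matrix (Fin 2) (Fin 2) k} (h : N * N = 0) (n : ℕ) :
    (1 + N) ^ n = 1 + (n : k) • N := by
  induction n with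
  | zero => simp
  | succ n ih =>
    rw [pow_succ, ih, mul_add, mul_one, add_mul, one_mul, smul_mul_assoc, h, smul_zero, add_zero,
      Nat.cast_succ, add_smul, one_smul, add_assoc]

lemma uni_of_pow {p : ℕ} [Fact p.Prime] [CharP k p] {Y : Matrix (Fin 2) (Fin 2) k} {a : ℕ}
    (h : Y ^ p ^ a = 1) : (Y - 1) * (Y - 1) = 0 := by
  apply nil_two
  refine ⟨p ^ a, ?_⟩
  rw [sub_pow_char_pow_of_commute (p := p) a (Commute.one_right Y), h, one_pow, sub_self]

end Pool.Agent.H502.SM
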