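import Pool.Agent.H502.SM.Main

/-!
# Sharpness: quadratic twists
-/

set_option autoImplicit false

open Matrix NumberField IsDedekindDomain Filter Topology
open Pool.Agent.W401.Cheb

namespace Pool.Agent.H502.SM

section finite

variable {Γ : Type*} [Group Γ] [Fintype Γ] {F : Type*} [Field F] [Fintype F]

/-- averaging, exact form -/
lemma avg_eq {I : Type*} [Fintype I] (s : I → Γ) (S W : Finset Γ) (M : ℕ) [DecidableEq Γ]
    (hW : ∀ x i, x * s i ∈ S → x ∈ W)
    (hM : ∀ x ∈ W, (Finset.univ.filter fun i => x * s i ∈ S).card = M) :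
    S.card * Fintype.card I = W.card * M := by
  have h1 : ∀ i : I, (Finset.univ.filter fun x : Γ => x * s i ∈ S).card = S.card := by
    intro i
    refine Finset.card_bij (fun x _ => x * s i) ?_ ?_ ?_
    · intro x hx; exact (Finset.mem_filter.mp hx).2
    · intro x _ y _ h; exact mul_right_cancel h
    · intro y hy
      exact ⟨y * (s i)⁻¹, Finset.mem_filter.mpr ⟨Finset.mem_univ _, by simpa using hy⟩, by simp⟩
  calc S.card * Fintype.card I = ∑ i : I, (Finset.univ.filter fun x : Γ => x * s i ∈ S).card := by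
        simp only [h1, Finset.sum_const, Finset.card_univ, smul_eq_mul]; ring
    _ = ∑ i : I, (W.filter fun x : Γ => x * s i ∈ S).card := by
        refine Finset.sum_congr rfl fun i _ => ?_
        congr 1
        ext x
        simp only [Finset.mem_filter, Finset.mem_univ, true_and]
        exact ⟨fun h => ⟨hW x i h, h⟩, fun h => h.2⟩
    _ = ∑ x ∈ W, (Finset.univ.filter fun i => x * s i ∈ S).card := by
        simp only [Finset.card_filter]
        rw [Finset.sum_comm]
    _ = ∑ x ∈ W, M := Finset.sum_congr rfl hM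
    _ = W.card * M := by rw [Finset.sum_const, smul_eq_mul]

variable [DecidableEq F]

/-- the quadratic character of the determinant -/
def eta {G : Type*} [Group G] (ρ : G →* GL (Fin 2) F) : G →* ℤˣ :=
  (quadraticChar F).toUnitHom.comp (Matrix.GeneralLinearGroup.det.comp ρ)

omit [Fintype Γ] in
lemma eta_val (ρ : Γ →* GL (Fin 2) F) (x : Γ) :
    ((eta ρ x : ℤˣ) : ℤ) = quadraticChar F (ρ x).val.det := rfl

omit [Fintype Γ] in
lemma det_ne (ρ : Γ →* GL (Fin 2) F) (x : Γ) : (ρ x).val.det ≠ 0 :=
  ((ρ x).isUnit.map (Matrix.detMonoidHom)).ne_zero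

omit [Fintype Γ] in
lemma eta_one_iff (ρ : Γ →* GL (Fin 2) F) (x : Γ) : eta ρ x = 1 ↔ IsSquare (ρ x).val.det := by
  rw [← Units.val_inj, eta_val, Units.val_one, quadraticChar_one_iff_isSquare (det_ne ρ x)]

theorem finite_sharp (ρ : Γ →* GL (Fin 2) F)
    (hS : ∀ B : Matrix (Fin 2) (Fin 2) F, B.det = 1 → ∃ x, (ρ x).val = B)
    (hneg : ¬ IsSquare (-1 : F)) (hd : ∃ x, ¬ IsSquare (ρ x).val.det) (S : Finset Γ)
    (hSm : ∀ x, x ∈ S ↔ (ρ x).val.trace = (((eta ρ x : ℤˣ) : ℤ) : F) * (ρ x).val.trace) :
    S.card * (2 * (Fintype.card F - 1)) = Fintype.card Γ * Fintype.card F := by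
  classical
  have h2 : (2 : F) ≠ 0 := by
    intro h
    apply hneg
    refine ⟨1, ?_⟩
    linear_combination -h
  have hη : ∀ x, eta ρ x = 1 ∨ eta ρ x = -1 := fun x => Int.units_eq_one_or _
  choose s hs using fun B : SpecialLinearGroup (Fin 2) F => hS B.val B.2
  set H : Subgroup Γ := (eta ρ).ker with hH
  set H' : Finset Γ := Finset.univ.filter fun x => x ∈ H with hH'
  set W : Finset Γ := Finset.univ.filter fun x => x ∉ H with hW
  have hHc : H'.card = Nat.card H := by
    symm
    refine Nat.subtype_card _ ?_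
    intro t
    rw [Finset.mem_filter]
    exact ⟨fun h => h.2, fun h => ⟨Finset.mem_univ _, h⟩⟩
  have hWc : W.card + H'.card = Fintype.card Γ := by
    rw [hW, hH', add_comm, ← Finset.card_univ]
    exact Finset.card_filter_add_card_filter_not (s := Finset.univ) (p := fun x => x ∈ H)
  have hidx : H.index = 2 := by
    rw [hH, Subgroup.index_ker]
    have : (eta ρ).range = ⊤ := by
      rw [eq_top_iff]
      intro u _
      rcases Int.units_eq_one_or u with rfl | rfl
      · exact one_mem _
      · obtain ⟨x, hx⟩ := hd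
        refine ⟨x, ?_⟩
        rcases hη x with h | h
        · exact absurd ((eta_one_iff ρ x).mp h) hx
        · exact h
    rw [this]
    simp
  have hHcard : 2 * Nat.card H = Fintype.card Γ := by
    rw [← Nat.card_eq_fintype_card (α := Γ), ← H.card_mul_index, hidx, mul_comm]
  have hmem : ∀ x, x ∈ S ↔ (x ∈ H ∨ (ρ x).val.trace = 0) := by
    intro x
    rw [hSm, hH, MonoidHom.mem_ker]
    rcases hη x with h | h
    · rw [h]; simp
    · rw [h]
      have hne : (-1 : ℤˣ) ≠ 1 := by decide
      simp only [Units.val_neg, Units.val_one, Int.cast_neg, Int.cast_one, neg_mul, one_mul, hne,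
        false_or]
      constructor
      · intro h3
        have : 2 * (ρ x).val.trace = 0 := by linear_combination h3
        exact (mul_eq_zero.mp this).resolve_left h2
      · intro h3; rw [h3, neg_zero]
  have hsH : ∀ B, s B ∈ H := by
    intro B
    rw [hH, MonoidHom.mem_ker, eta_one_iff, hs, B.2]
    exact IsSquare.one
  have h3 := avg_eq s (S ∩ W) W (Fintype.card F ^ 2 + Fintype.card F) (by
    intro x B hB
    have h4 : x * s B ∉ H := (Finset.mem_filter.mp (Finset.mem_inter.mp hB).2).2
    exact Finset.mem_filter.mpr ⟨Finset.mem_univ _, fun h5 => h4 (H.mul_mem h5 (hsH B))⟩) (by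
    intro x hx
    have hxH : x ∉ H := (Finset.mem_filter.mp hx).2
    have hns : ¬ IsSquare (ρ x).val.det := by
      intro h
      exact hxH (MonoidHom.mem_ker.mpr ((eta_one_iff ρ x).mpr h))
    have hsq : IsSquare (-(ρ x).val.det) := by
      have h5 : quadraticChar F (-(ρ x).val.det) = 1 := by
        rw [neg_eq_neg_one_mul, map_mul, quadraticChar_neg_one_iff_not_isSquare.mpr hneg,
          quadraticChar_neg_one_iff_not_isSquare.mpr hns]
        norm_num
      exact (quadraticChar_one_iff_isSquare (neg_ne_zero.mpr (det_ne ρ x))).mp h5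
    obtain ⟨t, ht⟩ := hsq
    rw [← card_tr_zero (ρ x) h2 (s := t) (by rw [ht, sq])]
    congr 1
    ext B
    simp only [Finset.mem_filter, Finset.mem_univ, true_and, Finset.mem_inter]
    have e1 : (ρ (x * s B)).val = (ρ x).val * B.val := by rw [map_mul, Units.val_mul, hs]
    have e2 : x * s B ∈ W := Finset.mem_filter.mpr ⟨Finset.mem_univ _, fun h5 => hxH (by
      have := H.mul_mem h5 (H.inv_mem (hsH B))
      rwa [mul_inv_cancel_right] at this)⟩
    have e3 : x * s B ∉ H := (Finset.mem_filter.mp e2).2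
    rw [hmem, e1]
    constructor
    · rintro ⟨h5 | h5, -⟩
      · exact absurd h5 e3
      · exact h5
    · intro h5
      exact ⟨Or.inr h5, e2⟩)
  rw [card_SL] at h3
  have hq : 2 ≤ Fintype.card F := Fintype.one_lt_card
  have h4 : (S ∩ W).card * (Fintype.card F - 1) = W.card := by
    have h5 : ((S ∩ W).card * (Fintype.card F - 1)) * (Fintype.card F * (Fintype.card F + 1)) =
        W.card * (Fintype.card F * (Fintype.card F + 1)) := by
      calc _ = (S ∩ W).card * (Fintype.card F * (Fintype.card F - 1) * (Fintype.card F + 1)) := by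
            ring
        _ = W.card * (Fintype.card F ^ 2 + Fintype.card F) := h3
        _ = _ := by ring
    exact Nat.eq_of_mul_eq_mul_right (by positivity) h5
  have h6 : S.card = (S ∩ W).card + H'.card := by
    rw [← Finset.card_union_of_disjoint]
    · congr 1
      ext x
      simp only [Finset.mem_union, Finset.mem_inter]
      constructor
      · intro hx
        by_cases hxH : x ∈ H
        · exact Or.inr (Finset.mem_filter.mpr ⟨Finset.mem_univ _, hxH⟩)
        · exact Or.inl ⟨hx, Finset.mem_filter.mpr ⟨Finset.mem_univ _, hxH⟩⟩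
      · rintro (h5 | h5)
        · exact h5.1
        · exact (hmem x).mpr (Or.inl (Finset.mem_filter.mp h5).2)
    · rw [Finset.disjoint_left]
      intro x hx hx'
      exact (Finset.mem_filter.mp (Finset.mem_inter.mp hx).2).2 (Finset.mem_filter.mp hx').2
  obtain ⟨q, hqq⟩ : ∃ q, Fintype.card F = q + 2 := ⟨_, (Nat.sub_add_cancel hq).symm⟩
  have hq1 : Fintype.card F - 1 = q + 1 := by omega
  rw [hq1] at h4 ⊢
  rw [hqq, h6, hHc]
  rw [hHc] at hWc
  calc ((S ∩ W).card + Nat.card H) * (2 * (q + 1)) =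
        2 * ((S ∩ W).card * (q + 1)) + (2 * Nat.card H) * (q + 1) := by ring
    _ = 2 * W.card + (2 * Nat.card H) * (q + 1) := by rw [h4]
    _ = 2 * (W.card + Nat.card H) + (2 * Nat.card H) * q := by ring
    _ = Fintype.card Γ * (q + 2) := by rw [hWc, hHcard]; ring

end finite

section nf

variable {K : Type} [Field K] [NumberField K] {F : Type*} [Field F] [Fintype F] [DecidableEq F]

/-- the twist by the quadratic character of the determinant -/
def twist {G : Type*} [Group G] (ρ : G →* GL (Fin 2) F) : G →* GL (Fin 2) F where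
  toFun x := (Units.map (algebraMap F (Matrix (Fin 2) (Fin 2) F)).toMonoidHom
    (Units.map (Int.castRingHom F).toMonoidHom (eta ρ x))) * ρ x
  map_one' := by simp
  map_mul' x y := by
    apply Units.ext
    rw [map_mul, map_mul, map_mul, map_mul]
    simp only [Units.val_mul]
    have : ∀ (c : F) (M : Matrix (Fin 2) (Fin 2) F), algebraMap F (Matrix (Fin 2) (Fin 2) F) c * M =
        M * algebraMap F (Matrix (Fin 2) (Fin 2) F) c := fun c M => Algebra.commutes c M
    simp only [Units.coe_map, RingHom.toMonoidHom_eq_coe, MonoidHom.coe_coe]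
    rw [mul_assoc, mul_assoc, ← mul_assoc _ (ρ x).val, this _ (ρ x).val, mul_assoc]

lemma twist_val {G : Type*} [Group G] (ρ : G →* GL (Fin 2) F) (x : G) :
    (twist ρ x).val = (((eta ρ x : ℤˣ) : ℤ) : F) • (ρ x).val := by
  change algebraMap F (Matrix (Fin 2) (Fin 2) F) _ * (ρ x).val = _
  rw [← Algebra.smul_def]
  rfl

/-- **Sharpness.** -/
theorem sharp (ρ : GK K →* GL (Fin 2) F) (hρ : IsOpen (ρ.ker : Set (GK K)))
    (hS : ∀ B : Matrix (Fin 2) (Fin 2) F, B.det = 1 → ∃ x, (ρ x).val = B)
    (hneg : ¬ IsSquare (-1 : F)) (hd : ∃ x, ¬ IsSquare (ρ x).val.det) :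
    ρ.ker ≤ (twist ρ).ker ∧
    (∀ x, twist ρ x = ρ x ∨ twist ρ x = - ρ x) ∧
    Tendsto (dens fun v : HeightOneSpectrum (𝓞 K) => ∃ x, IsFrob v x ∧
      (ρ x).val.trace = (twist ρ x).val.trace) atTop
      (𝓝 ((Fintype.card F : ℝ) / (2 * (Fintype.card F - 1)))) ∧
    ¬ ∃ P : GL (Fin 2) F, ∀ x, twist ρ x = P * ρ x * P⁻¹ := by
  classical
  set U : Subgroup (GK K) := ρ.ker with hU
  have hker : ρ.ker ≤ (twist ρ).ker := by
    intro x hx
    rw [MonoidHom.mem_ker] at hx ⊢
    apply Units.ext
    rw [twist_val, hx]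
    have : eta ρ x = 1 := by rw [eta_one_iff, hx]; simp
    rw [this]; simp
  have hfin : Finite (GK K ⧸ U) := Subgroup.quotient_finite_of_isOpen _ hρ
  let _ : Fintype (GK K ⧸ U) := Fintype.ofFinite _
  set C : Set (GK K) := {x | (ρ x).val.trace = (twist ρ x).val.trace} with hC
  have h1 : ∀ s ∈ C, ∀ τ : GK K, τ * s * τ⁻¹ ∈ C := by
    intro s hi τ
    have e1 := trace_conj ρ τ s
    have e2 := trace_conj (twist ρ) τ s
    exact e1.trans (Eq.trans hi e2.symm)
  have h2 : ∀ s ∈ C, ∀ u ∈ U, s * u ∈ C := by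
    intro s hi u hu
    change (ρ (s * u)).val.trace = (twist ρ (s * u)).val.trace
    rw [map_mul, map_mul, (MonoidHom.mem_ker).mp hu, (MonoidHom.mem_ker).mp (hker hu), mul_one,
      mul_one]
    exact hi
  have key := Pool.Agent.W528.Ord.chebK K U hρ C h1 h2
  set ρ' := ql U ρ le_rfl with hρ'
  set S : Finset (GK K ⧸ U) := Finset.univ.filter fun γ =>
    (ρ' γ).val.trace = (((eta ρ' γ : ℤˣ) : ℤ) : F) * (ρ' γ).val.trace with hSdef
  have hfs := finite_sharp ρ' (by
    intro B hB
    obtain ⟨x, hx⟩ := hS B hB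
    exact ⟨QuotientGroup.mk x, hx⟩) hneg (by
    obtain ⟨x, hx⟩ := hd
    exact ⟨QuotientGroup.mk x, hx⟩) S (by
    intro γ
    rw [hSdef, Finset.mem_filter]
    exact ⟨fun h => h.2, fun h => ⟨Finset.mem_univ _, h⟩⟩)
  have himg : ((QuotientGroup.mk : GK K → GK K ⧸ U) '' C) = (S : Set _) := by
    ext γ
    rw [Finset.mem_coe, hSdef, Finset.mem_filter]
    constructor
    · rintro ⟨x, hx, rfl⟩
      refine ⟨Finset.mem_univ _, ?_⟩
      have hx' : (ρ x).val.trace = (twist ρ x).val.trace := hx
      rw [twist_val, Matrix.trace_smul, smul_eq_mul] at hx'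
      exact hx'
    · rintro ⟨-, hγ⟩
      obtain ⟨x, rfl⟩ := QuotientGroup.mk_surjective γ
      refine ⟨x, ?_, rfl⟩
      change (ρ x).val.trace = (twist ρ x).val.trace
      rw [twist_val, Matrix.trace_smul, smul_eq_mul]
      exact hγ
  have hq : (1 : ℝ) < Fintype.card F := by exact_mod_cast Fintype.one_lt_card (α := F)
  have hpos : (0 : ℝ) < (Nat.card (GK K ⧸ U) : ℝ) := by exact_mod_cast Nat.card_pos
  have e5 : ((Fintype.card F - 1 : ℕ) : ℝ) = (Fintype.card F : ℝ) - 1 := by
    rw [Nat.cast_sub (Fintype.card_pos)]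
    simp
  refine ⟨hker, ?_, ?_, ?_⟩
  · intro x
    rcases Int.units_eq_one_or (eta ρ x) with h | h
    · left
      apply Units.ext
      rw [twist_val, h]; simp
    · right
      apply Units.ext
      rw [twist_val, h]; simp
  · have hval : ((((QuotientGroup.mk : GK K → GK K ⧸ U) '' C).ncard : ℝ) /
        (Nat.card (GK K ⧸ U) : ℝ)) = (Fintype.card F : ℝ) / (2 * (Fintype.card F - 1)) := by
      rw [himg, Set.ncard_coe_finset, div_eq_div_iff hpos.ne' (by linarith), ← e5]
      rw [Nat.card_eq_fintype_card]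
      have : ((S.card * (2 * (Fintype.card F - 1)) : ℕ) : ℝ) =
          ((Fintype.card (GK K ⧸ U) * Fintype.card F : ℕ) : ℝ) := by rw [hfs]
      push_cast at this
      linarith
    rw [← hval]
    have hP : (fun v : HeightOneSpectrum (𝓞 K) => ∃ x, IsFrob v x ∧
        (ρ x).val.trace = (twist ρ x).val.trace) =
        (fun v : HeightOneSpectrum (𝓞 K) => ∃ σ ∈ C, IsFrob v σ) := by
      funext v
      apply propext
      exact ⟨fun ⟨x, h, h'⟩ => ⟨x, h', h⟩, fun ⟨x, h, h'⟩ => ⟨x, h', h⟩⟩
    rw [hP]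
    exact key
  · rintro ⟨P, hP⟩
    have hall : S = Finset.univ := by
      rw [hSdef, Finset.filter_eq_self]
      intro γ _
      obtain ⟨x, rfl⟩ := QuotientGroup.mk_surjective γ
      have e6 : (twist ρ x).val.trace = (ρ x).val.trace := by
        rw [hP, Units.val_mul, Units.val_mul, Matrix.trace_mul_comm, ← mul_assoc, ← Units.val_mul,
          inv_mul_cancel, Units.val_one, one_mul]
      rw [twist_val, Matrix.trace_smul, smul_eq_mul] at e6
      exact e6.symm
    rw [hall, Finset.card_univ] at hfs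
    have hc : 0 < Fintype.card (GK K ⧸ U) := Fintype.card_pos
    have h7 := Nat.eq_of_mul_eq_mul_left hc hfs
    have h8 : Fintype.card F = 2 := by
      have := Fintype.one_lt_card (α := F)
      omega
    apply hneg
    have h9 : ((Fintype.card F : ℕ) : F) = 0 := FiniteField.cast_card_eq_zero F
    rw [h8] at h9
    refine ⟨1, ?_⟩
    push_cast at h9
    linear_combination -h9

end nf

end Pool.Agent.H502.SM
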